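import Pool.Agent.L7h80.AP.Strip

set_option autoImplicit false

/-!
# Toroidal manifolds with alternating diagrams as pieces

Let `D` be a connected checkerboard coloured alternating diagram on the sphere and `M D` the
double branched cover of the complement of *all* crossing balls (branched over the edges of the diagram).
`M D` has one boundary torus for each crossing `c`, with a basis `D.U c`, `D.V c` of its fundamental group:
the lifts of the curves on the crossing sphere which separate the two white, respectively the two black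
corners. The crossing is the solid torus with the slope given by `U = V`, a rational tangle with positive
parameter `p / q` the one given by `U ^ q = V ^ p`. The two resolutions of the crossing are `U = 1`
and `V = 1`.

If the edges of the diagram form the 1-skeleton of an ideal polyhedron with right angles,
then `M D` is the union of four copies of this polyhedron, and it is hyperbolic; for instance the standard
diagram of the Borromean rings (the octahedron, `borromean` below) gives a hyperbolic manifold with six
cusps. In this way one obtains hyperbolic manifolds with arbitrarily many cusps.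

We show that `M D` can be used as a piece, with an arbitrary number of boundary tori, in the gluing
theorems of `TreesOfChainLinks`, `GluedKnotExteriors`, `EncircledAlternatingLinks` (starting results of
the problem MP_9ae2f3_gt) and of `MixedTrees` (same problem). The distinguished interval of slopes of
the torus of the crossing `c` consists of the slopes of `U ^ a * V ^ (-b)`, `a, b ≥ 0`. (The fillings
of all tori with such slopes, `a, b ≥ 1`, are the double branched covers of the alternating links obtained by
replacing the crossings by rational tangles with positive parameters.) The pieces `Y` of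
`EncircledAlternatingLinks` (an alternating diagram with a circle `A` which encircles three strands) are
treated in the same way, that is, the balls of the crossings are removed also here, so that one gets one
boundary torus for `A` and one for each crossing.

`Member N Q` is a class of manifolds with one boundary torus and fundamental group `N`; `Q` is one half
of the set of boundary elements whose slopes are in the interior of the distinguished interval (for the
tori of the crossings of `M D` we also admit the endpoints of the interval). The members are the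
exteriors of knots with Nie's property (D), and the manifolds obtained from the following pieces by
gluing solid tori or members of the class to all boundary tori but one: exteriors of the Borromean rings, of
chain links, the product of the circle and a sphere with holes, the manifolds `M D`, and the
manifolds `Y` (here `A` stays open). Always every slope of a gluing torus is in the
interior of the distinguished interval of one of the two sides.

The theorem (`result`): the fundamental group of a closed manifold which is obtained in this way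
has no nontrivial homomorphism to a left-orderable group; the root of the tree of pieces
may be (1) `M D`, (2) the exterior of `A` in the case of a strip with a solid torus at `A`, (3) any
member with a distinguished interval of the first kind (to which another member is glued), (4) the
exterior of a chain link.

For example one can glue exteriors of torus knots or of the pretzel knot `P(-2, 3, 7)` and chain link
exteriors to the six tori of the manifold of `borromean`. (If only the pieces `M D` are glued to
each other, the result is the double branched cover of an alternating link, and the theorem is known: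
Greene, Ito, Boyer-Gordon-Watson. The definition of a diagram used here does not contain the condition that
the surface, which is composed of the regions, is a sphere; the theorem holds without it.)

The proof. Let the group of the glued manifold act on a complete linear order and let `r` be a point. At a
crossing with a solid torus or with a member, `U` and `V` move `r` in the same direction, or both
fix `r` (`Agree`). Consider the images of `r` under the generators of the white regions (the potential). At
a region with maximal potential all currents `U ^ (± 1)` move `r` in the same direction, but their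
product around the region is `1`, so they fix `r`: this maximum principle (`flat`) shows that `r` is a
global fixed point if `U` and `V` agree at all crossings. If the crossing `c₀` is open, the same argument
shows that `U` fixes `r` if and only if `V` does (provided that `c₀` is not nugatory, so that the white
and the black graph are connected without it). Hence at `c₀` the elements `U` and `V` move each point in
opposite directions unless it is a global fixed point (`plane_tri`), and this is the condition (`Dir`)
which is needed for gluing.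
-/

universe u v

namespace Pool.Agent.Results.MP_3d425c_gt.AlternatingPieces

open Pool.Agent.R649.BT (Block Piece Cap SCap BlockOK cap_solid)
open Pool.Agent.TH744.Tree (Link lon Node Cp CpS cp_solid mono_aut tws set0 lon_map)
open Pool.Agent.L7h76.MT (Dir Both)
open Pool.Agent.Results.MP_9ae2f3_gt.GluedKnotExteriors (PropertyD IsPiece NoOrders noOrders)
open Pool.Agent.Results.MP_9ae2f3_gt.MixedTrees (Kind pos Solid Glued twist)
open Pool.Agent.L7h80.AP

/-- The element of the fundamental group of the exterior in the double cover of `A` and of the crossing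
balls. -/
abbrev cls (D : Pool.Agent.R649.BT.Alt.Diagram) (g : FreeGroup D.Gen) :
    PresentedGroup (stripRel D) := PresentedGroup.mk (stripRel D) g

/-- `Member G Q`: the group `G` of a manifold with one boundary torus; `Q` is a set of boundary
elements.

`knot`: the exterior of a knot with property (D).

`piece`: a piece `K` of the starting library (exterior of the Borromean rings, circle times sphere with
holes, double branched cover of an alternating diagram with an encircled triple of strands), with the basis
`K.x i`, `K.e i` for the torus `i`, see `MixedTrees`. For `i ∈ S`, `i ≠ 0`, a member with group `N i`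
is glued to the torus `i`, such that the slopes `K.x i ^ p * K.e i ^ q` with `p q ≤ 0` are in
the interior of its distinguished interval; for `i ∉ S`, `i ≠ 0`, a solid torus.

`chain`: the exterior of a chain link with the components `0, ..., n - 1`, see `MixedTrees`. Component
`0` stays open; for `i ∈ S`, `i + 1 < n`, a member with group `N i` is glued to component `i + 1`, and
for `i ∉ S` a solid torus.

`plane`: the double branched cover `M D` of the complement of the crossing balls of the alternating
diagram `D`. The torus of the crossing `c₀`, which is not nugatory, stays open; to the torus of `c ≠ c₀`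
a member is glued (if `c ∈ S`), such that the slopes `U ^ a * V ^ b` with `a, b ≥ 0` are in the
interior of its distinguished interval, or a solid torus with `U ^ q = V ^ p`, `p, q ≥ 1` (if
`c ∉ S`).

`strip`: the double cover of the exterior of `A` in the complement of the crossing balls of an alternating
diagram `D` in a strip (with three strands at the left and at the right side). The torus of `A`, with the basis
`D.t`, `D.t₁`, stays open; the tori of the crossings are treated as for `plane`.

The group `G` may be any group generated by elements and images of the groups `N i` with these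
relations, for instance the fundamental group of the glued manifold. -/
inductive Member : (G : Type) → [Group G] → Set G → Prop
  | knot {G : Type} [Group G] {μ l : G} {n : ℤ} (h : PropertyD G μ l n) :
      Member G (pos .quadrant μ (μ ^ n * l))
  | piece {G : Type} [Group G] (K : Block) (hK : IsPiece K) (j : PresentedGroup K.rel →* G)
      (N : K.Tori → Type) [∀ i, Group (N i)] (js : ∀ i, N i →* G) (Q : ∀ i, Set (N i))
      (S : Set K.Tori) (hS : ∀ i ∈ S, i ≠ 0 → Member (N i) (Q i))
      (glue : ∀ i ∈ S, i ≠ 0 → Both (js i '' Q i)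
        (j (PresentedGroup.mk K.rel (K.x i))) (j (PresentedGroup.mk K.rel (K.e i)))⁻¹)
      (solid : ∀ i, i ∉ S → i ≠ 0 → ∃ p q : ℕ, 1 ≤ q ∧ ((∃ k, K = Block.seif k) → 1 ≤ p) ∧
        j (PresentedGroup.mk K.rel (K.x i)) ^ p * j (PresentedGroup.mk K.rel (K.e i)) ^ q = 1)
      (gen : j.range ⊔ ⨆ i ∈ {i | i ∈ S ∧ i ≠ 0}, (js i).range = ⊤) :
      Member G (pos .quadrant (j (PresentedGroup.mk K.rel (K.x 0)))
        (j (PresentedGroup.mk K.rel (K.e 0))))
  | chain {G : Type} [Group G] (n : ℕ) (hn : 1 ≤ n) (o m : ℕ → G) (c s : ℕ → Bool)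
      (link : Link n o m c) (per : ∀ i, s (i + n) = s i) (s0 : s 0 = true)
      (N : ℕ → Type) [∀ i, Group (N i)] (js : ∀ i, N i →* G) (Q : ∀ i, Set (N i))
      (S : Set ℕ) (hS : ∀ i ∈ S, i + 1 < n → Member (N i) (Q i))
      (glue : ∀ i ∈ S, i + 1 < n → Glued (js i '' Q i) (s (i + 1)) (o (i + 1)) (lon o m c i))
      (solid : ∀ i ∉ S, i + 1 < n → Solid (s (i + 1)) (o (i + 1)) (lon o m c i))
      (tw : twist n c s = 0 ∨ twist n c s = -1)
      (gen : Subgroup.closure (Set.range o ∪ Set.range m) ⊔
        ⨆ i ∈ {i | i ∈ S ∧ i + 1 < n}, (js i).range = ⊤) :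
      Member G (pos .chain (o 0) (lon o m c (n - 1)))
  | plane {G : Type} [Group G] (D : Diagram) (j : D.Grp →* G) (c₀ : D.C) (ess : D.Essential c₀)
      (N : D.C → Type) [∀ c, Group (N c)] (js : ∀ c, N c →* G) (Q : ∀ c, Set (N c))
      (S : Set D.C) (hS : ∀ c ∈ S, c ≠ c₀ → Member (N c) (Q c))
      (glue : ∀ c ∈ S, c ≠ c₀ → Both (js c '' Q c) (j (D.U c)) (j (D.V c)))
      (solid : ∀ c ∉ S, c ≠ c₀ → Rational (j (D.U c)) (j (D.V c)))
      (gen : j.range ⊔ ⨆ c ∈ {c | c ∈ S ∧ c ≠ c₀}, (js c).range = ⊤) :
      Member G (cone (j (D.U c₀)) (j (D.V c₀))⁻¹)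
  | strip {G : Type} [Group G] (D : Pool.Agent.R649.BT.Alt.Diagram)
      (j : PresentedGroup (stripRel D) →* G)
      (N : D.C → Type) [∀ c, Group (N c)] (js : ∀ c, N c →* G) (Q : ∀ c, Set (N c))
      (S : Set D.C) (hS : ∀ c ∈ S, Member (N c) (Q c))
      (glue : ∀ c ∈ S, Both (js c '' Q c) (j (cls D (D.u c))) (j (cls D (D.v c))))
      (solid : ∀ c ∉ S, Rational (j (cls D (D.u c))) (j (cls D (D.v c))))
      (gen : j.range ⊔ ⨆ c ∈ S, (js c).range = ⊤) :
      Member G (pos .quadrant (j (cls D D.t)) (j (cls D D.t₁)))

section proof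

open Pool.Agent.Results.MP_9ae2f3_gt.MixedTrees (dir_quadrant dir_chain chain_gen tws_eq)

theorem piece_step {G : Type} [Group G] (K : Block) (hK : IsPiece K)
    (j : PresentedGroup K.rel →* G)
    (N : K.Tori → Type) [∀ i, Group (N i)] (js : ∀ i, N i →* G) (Q : ∀ i, Set (N i))
    (S : Set K.Tori)
    (ih : ∀ i ∈ S, i ≠ 0 → Dir.{u} (N i) (Q i))
    (glue : ∀ i ∈ S, i ≠ 0 → Both (js i '' Q i)
      (j (PresentedGroup.mk K.rel (K.x i))) (j (PresentedGroup.mk K.rel (K.e i)))⁻¹)
    (solid : ∀ i, i ∉ S → i ≠ 0 → ∃ p q : ℕ, 1 ≤ q ∧ ((∃ k, K = Block.seif k) → 1 ≤ p) ∧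
      j (PresentedGroup.mk K.rel (K.x i)) ^ p * j (PresentedGroup.mk K.rel (K.e i)) ^ q = 1)
    (gen : j.range ⊔ ⨆ i ∈ {i | i ∈ S ∧ i ≠ 0}, (js i).range = ⊤) :
    Dir.{u} G (pos .quadrant (j (PresentedGroup.mk K.rel (K.x 0)))
      (j (PresentedGroup.mk K.rel (K.e 0)))) := by
  have hb := hK.ok.{u}
  have hcm : ∀ i, Commute (j (PresentedGroup.mk K.rel (K.x i)))
      (j (PresentedGroup.mk K.rel (K.e i))) := fun i => (hb.comm i).map j
  have caps : ∀ (X : Type u) [CompleteLinearOrder X] (ρ : G →* (X ≃o X)) (i : K.Tori), i ≠ 0 →
      Cap (ρ (j (PresentedGroup.mk K.rel (K.x i)))) (ρ (j (PresentedGroup.mk K.rel (K.e i)))) ∧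
      ((∃ k, K = Block.seif k) → SCap (ρ (j (PresentedGroup.mk K.rel (K.x i))))
        (ρ (j (PresentedGroup.mk K.rel (K.e i))))) ∧
      (i ∈ S → ∀ p, ρ (j (PresentedGroup.mk K.rel (K.x i))) p = p →
        ∀ g, ρ (js i g) p = p) := by
    intro X _ ρ i h0
    by_cases hi : i ∈ S
    · have h3 := (ih i hi h0).scap (js i) ρ (glue i hi h0)
      exact ⟨h3.cap, fun _ => h3, fun _ p hp g =>
        (ih i hi h0).both_fix (js i) ρ (glue i hi h0) hp g⟩
    · obtain ⟨p, q, hq, hp, hr⟩ := solid i hi h0
      have hr' := congrArg ρ hr
      rw [map_mul, map_pow, map_pow, map_one] at hr'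
      obtain ⟨c1, c2⟩ := cap_solid ((hcm i).map ρ) hq hr'
      exact ⟨c1, fun hk => c2 (hp hk), fun hi' => absurd hi' hi⟩
  have hgen : ∀ (X : Type u) [CompleteLinearOrder X] (ρ : G →* (X ≃o X)) (p : X),
      (∀ g, ρ (j g) p = p) → ∀ g, ρ g p = p := fun X _ ρ p hp =>
    gen_fix j N js _ gen ρ hp fun i hi => (caps X ρ i hi.2).2.2 hi.1 p (hp _)
  refine dir_quadrant (hcm 0) ⟨(Commute.refl _).inv_right.mul_right (hcm 0),
    fun X _ ρ p hx ha => ?_, fun X _ ρ hd g p => ?_⟩
  · refine hgen X ρ p (hb.opn X (ρ.comp j) (fun i hi => (caps X ρ i hi).1) p hx ?_)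
    rw [map_mul, map_inv] at ha
    have h2 := congrArg (ρ (j (PresentedGroup.mk K.rel (K.x 0)))) ha
    have h3 : ρ (j (PresentedGroup.mk K.rel (K.x 0)))
        ((ρ (j (PresentedGroup.mk K.rel (K.x 0))))⁻¹
          (ρ (j (PresentedGroup.mk K.rel (K.e 0))) p)) =
        ρ (j (PresentedGroup.mk K.rel (K.e 0))) p :=
      (ρ (j (PresentedGroup.mk K.rel (K.x 0)))).apply_symm_apply _
    rw [RelIso.mul_apply, h3, hx] at h2
    exact h2
  · refine hgen X ρ p (fun g => ?_) g
    have h0 := Cap.of_dom hd
    rw [← map_mul, mul_inv_cancel_left] at h0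
    exact hb.closed X (ρ.comp j) h0 (fun i hi => (caps X ρ i hi).1)
      (fun h i hi => (caps X ρ i hi).2.1 h) g p

/-- The caps of the components of a chain link. -/
theorem chain_cap {G : Type*} [Group G] {n : ℕ} {o m : ℕ → G} {c s : ℕ → Bool}
    (link : Link n o m c) (N : ℕ → Type) [∀ i, Group (N i)] (js : ∀ i, N i →* G)
    (Q : ∀ i, Set (N i)) (S : Set ℕ) (i : ℕ) (ih : i ∈ S → Dir.{u} (N i) (Q i))
    (glue : i ∈ S → Both (js i '' Q i) (o (i + 1))⁻¹
      (o (i + 1) ^ 2 * if s (i + 1) then lon o m c i else (lon o m c i)⁻¹))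
    (solid : i ∉ S → ∃ p q : ℤ, 1 ≤ q ∧ 2 * q ≤ |p| ∧ s (i + 1) = decide (0 < p) ∧
      o (i + 1) ^ p * lon o m c i ^ q = 1)
    (X : Type u) [CompleteLinearOrder X] (ρ : G →* (X ≃o X)) :
    Cp X (s (i + 1)) (ρ (o (i + 1))) (ρ (lon o m c i)) ∧
    (i ∈ S → CpS X (s (i + 1)) (ρ (o (i + 1))) (ρ (lon o m c i)) ∧
      ∀ p, ρ (o (i + 1)) p = p → ∀ g, ρ (js i g) p = p) := by
  by_cases hi : i ∈ S
  · have h1 := (ih hi).cps (js i) ρ (glue hi)
    refine ⟨h1.2, fun _ => ⟨h1.1, fun p hp g => ?_⟩⟩
    rw [Pool.Agent.L7h76.MT.eq_of_inv] at hp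
    exact (ih hi).both_fix (js i) ρ (glue hi) hp g
  · obtain ⟨p, q, hq, hp, hs, hr⟩ := solid hi
    refine ⟨?_, fun h => absurd h hi⟩
    rw [hs]
    refine cp_solid mono_aut ((link.comm i).map ρ) hq hp ?_
    have := congrArg ρ hr
    rwa [map_mul, map_zpow, map_zpow, map_one] at this

theorem plane_step {G : Type} [Group G] (D : Diagram) (j : D.Grp →* G) (c₀ : D.C)
    (ess : D.Essential c₀)
    (N : D.C → Type) [∀ c, Group (N c)] (js : ∀ c, N c →* G) (Q : ∀ c, Set (N c))
    (S : Set D.C) (ih : ∀ c ∈ S, c ≠ c₀ → Dir.{u} (N c) (Q c))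
    (glue : ∀ c ∈ S, c ≠ c₀ → Both (js c '' Q c) (j (D.U c)) (j (D.V c)))
    (solid : ∀ c ∉ S, c ≠ c₀ → Rational (j (D.U c)) (j (D.V c)))
    (gen : j.range ⊔ ⨆ c ∈ {c | c ∈ S ∧ c ≠ c₀}, (js c).range = ⊤) :
    Dir.{u} G (cone (j (D.U c₀)) (j (D.V c₀))⁻¹) := by
  refine dir_cone ((comm_UV D c₀).map j).inv_right fun X _ ρ r => ?_
  have cap := fun c (hc : c ≠ c₀) => cross_cap (js c) (Q c) (c ∈ S) (fun h => ih c h hc)
    (fun h => glue c h hc) (fun h => solid c h hc) ρ r
  rcases plane_tri D j ρ ess (r := r) (fun c hc => (cap c hc).1) with h | h | h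
  · exact Or.inl (gen_fix j N js _ gen ρ h fun c hc => (cap c hc.2).2 hc.1 (h _))
  · exact Or.inr (Or.inl h)
  · exact Or.inr (Or.inr h)

theorem strip_step {G : Type} [Group G] (D : Pool.Agent.R649.BT.Alt.Diagram)
    (j : PresentedGroup (stripRel D) →* G)
    (N : D.C → Type) [∀ c, Group (N c)] (js : ∀ c, N c →* G) (Q : ∀ c, Set (N c))
    (S : Set D.C) (ih : ∀ c ∈ S, Dir.{u} (N c) (Q c))
    (glue : ∀ c ∈ S, Both (js c '' Q c) (j (cls D (D.u c))) (j (cls D (D.v c))))
    (solid : ∀ c ∉ S, Rational (j (cls D (D.u c))) (j (cls D (D.v c))))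
    (gen : j.range ⊔ ⨆ c ∈ S, (js c).range = ⊤) :
    Dir.{u} G (pos .quadrant (j (cls D D.t)) (j (cls D D.t₁))) := by
  have cap := fun c => fun (X : Type u) [CompleteLinearOrder X] (ρ : G →* (X ≃o X)) r =>
    cross_cap (js c) (Q c) (c ∈ S) (ih c) (glue c) (solid c) ρ r
  have h := strip_dir.{u} D j (fun X _ ρ c r => (cap c X ρ r).1) fun X _ ρ p hp =>
    gen_fix j N js _ gen ρ hp fun c hc => (cap c X ρ p).2 hc (hp _)
  exact dir_quadrant h.1 h.2

theorem Member.dir {G : Type} [Group G] {Q : Set G} (h : Member G Q) : Dir.{u} G Q := by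
  induction h with
  | @knot G _ μ l n h =>
    exact dir_quadrant (((Commute.refl μ).zpow_right n).mul_right h.comm) h.piece
  | @piece G _ K hK j N _ js Q S hS glue solid gen ih =>
    exact piece_step K hK j N js Q S ih glue solid gen
  | @chain G _ n hn o m c s link per s0 N _ js Q S hS glue solid tw gen ih =>
    have node : Node.{u} G n o m c s := by
      refine ⟨link, hn, per, fun X _ ρ i hi => ?_, fun X _ ρ p ho hm => ?_⟩
      · exact (chain_cap link N js Q S i (fun h => ih i h hi) (fun h => glue i h hi)
          (fun h => solid i h hi) X ρ).1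
      · refine chain_gen (c := c) (n := n) N js _ gen ρ ho hm fun i hi => ?_
        exact ((chain_cap link N js Q S i (fun h => ih i h hi.2) (fun h => glue i h hi.2)
          (fun h => solid i h hi.2) X ρ).2 hi.1).2 p (ho _)
    refine dir_chain (node.tame ?_)
    have e1 : set0 n s true = s := by
      funext i
      unfold set0
      split_ifs with h
      · obtain ⟨t, rfl⟩ := Nat.dvd_of_mod_eq_zero h
        have h2 : ∀ t, s (n * t) = true := by
          intro t
          induction t with
          | zero => simpa using s0
          | succ t ih =>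
            rw [Nat.mul_succ, per]; exact ih
        exact (h2 t).symm
      · rfl
    rw [e1, tws_eq]
    exact tw
  | @plane G _ D j c₀ ess N _ js Q S hS glue solid gen ih =>
    exact plane_step D j c₀ ess N js Q S ih glue solid gen
  | @strip G _ D j N _ js Q S hS glue solid gen ih =>
    exact strip_step D j N js Q S ih glue solid gen

theorem act_plane {G : Type u} [Group G] (D : Diagram) (j : D.Grp →* G)
    (N : D.C → Type) [∀ c, Group (N c)] (js : ∀ c, N c →* G) (Q : ∀ c, Set (N c))
    (S : Set D.C) (hS : ∀ c ∈ S, Member (N c) (Q c))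
    (glue : ∀ c ∈ S, Both (js c '' Q c) (j (D.U c)) (j (D.V c)))
    (solid : ∀ c ∉ S, Rational (j (D.U c)) (j (D.V c)))
    (gen : j.range ⊔ ⨆ c ∈ S, (js c).range = ⊤) {X : Type u} [CompleteLinearOrder X]
    (ρ : G →* (X ≃o X)) (g : G) (p : X) : ρ g p = p := by
  have cap := fun c => cross_cap (js c) (Q c) (c ∈ S) (fun h => (hS c h).dir.{u}) (glue c)
    (solid c) ρ p
  have h := plane_closed D j ρ (r := p) fun c => (cap c).1
  exact gen_fix j N js _ gen ρ h (fun c hc => (cap c).2 hc (h _)) g

theorem act_strip {G : Type u} [Group G] (D : Pool.Agent.R649.BT.Alt.Diagram)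
    (j : PresentedGroup (stripRel D) →* G)
    (N : D.C → Type) [∀ c, Group (N c)] (js : ∀ c, N c →* G) (Q : ∀ c, Set (N c))
    (S : Set D.C) (a b : ℕ) (hS : ∀ c ∈ S, Member (N c) (Q c))
    (glue : ∀ c ∈ S, Both (js c '' Q c) (j (cls D (D.u c))) (j (cls D (D.v c))))
    (solid : ∀ c ∉ S, Rational (j (cls D (D.u c))) (j (cls D (D.v c))))
    (hab : 1 ≤ a + b) (hr : j (cls D D.t) ^ a * j (cls D D.t₁) ^ b = 1)
    (gen : j.range ⊔ ⨆ c ∈ S, (js c).range = ⊤) {X : Type u} [CompleteLinearOrder X]
    (ρ : G →* (X ≃o X)) (g : G) (p : X) : ρ g p = p := by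
  have cap := fun c => cross_cap (js c) (Q c) (c ∈ S) (fun h => (hS c h).dir.{u}) (glue c)
    (solid c) ρ
  have h := fun p => strip_solid D j hab hr ρ (fun c r => (cap c r).1) p
  exact gen_fix j N js _ gen ρ (h p) (fun c hc => (cap c p).2 hc (h p _)) g

/-- A chain link all of whose components are filled. -/
theorem act_chain {G : Type u} [Group G] {n : ℕ} (hn : 1 ≤ n) {o m : ℕ → G} {c s : ℕ → Bool}
    (link : Link n o m c) (per : ∀ i, s (i + n) = s i) (N : ℕ → Type) [∀ i, Group (N i)]
    (js : ∀ i, N i →* G) (Q : ∀ i, Set (N i)) (S : Set ℕ)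
    (hS : ∀ i ∈ S, i < n → Member (N i) (Q i))
    (glue : ∀ i ∈ S, i < n → Glued (js i '' Q i) (s (i + 1)) (o (i + 1)) (lon o m c i))
    (solid : ∀ i ∉ S, i < n → Solid (s (i + 1)) (o (i + 1)) (lon o m c i))
    (tw : (twist n c s = 1 ∨ twist n c s = -1) ∨ (twist n c s = 0 ∧ ∃ i ∈ S, i < n))
    (gen : Subgroup.closure (Set.range o ∪ Set.range m) ⊔
      ⨆ i ∈ {i | i ∈ S ∧ i < n}, (js i).range = ⊤) {X : Type u} [CompleteLinearOrder X]
    (ρ : G →* (X ≃o X)) (g : G) (p : X) : ρ g p = p := by
  have cap := fun i (hi : i < n) => chain_cap (s := s) link N js Q S i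
    (fun h => (hS i h hi).dir.{u}) (fun h => glue i h hi) (fun h => solid i h hi) X ρ
  have key := (link.map ρ).closed (X := X) (s := s) mono_aut hn per
    (fun i hi => by
      rw [lon_map]
      exact (cap i hi).1)
    (by
      rw [tws_eq]
      rcases tw with h | ⟨h, i, hi, hin⟩
      · exact Or.inl h
      · refine Or.inr ⟨h, i, ?_⟩
        rw [lon_map]
        exact ((cap i hin).2 hi).1) p
  refine chain_gen (c := c) (n := n) N js _ gen ρ key.2 (fun i => link.mfix ρ key.1 key.2 i)
    (fun i hi => ((cap i hi.2).2 hi.1).2 p (key.2 _)) g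

end proof

section examples

open Relation

theorem near_all {V C : Type} {T : Set C} {v₁ v₂ : C → V} (v₀ : V)
    (h : ∀ v, ReflTransGen (Near T v₁ v₂) v v₀) (a b : V) : ReflTransGen (Near T v₁ v₂) a b := by
  have symm : ∀ a b, Near T v₁ v₂ a b → Near T v₁ v₂ b a := by
    rintro a b ⟨⟨c, s⟩, h0, h1, h2⟩
    refine ⟨(c, !s), h0, ?_, ?_⟩ <;> cases s <;> simp_all [Pool.Agent.R649.BT.Alt.cAt,
      Pool.Agent.R649.BT.Alt.cOpp]
  refine (h a).trans ?_
  have h4 := ReflTransGen.swap _ _ (h b)
  exact ReflTransGen.mono (fun a b h => symm _ _ h) _ _ h4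

/-- Example: the standard diagram of the Borromean rings. The regions are the vertices (white) and
the faces (black, `i` is the face opposite to the vertex `i`) of a tetrahedron, the crossings are its
edges `0 1`, `1 2`, `2 0`, `3 0`, `3 1`, `3 2`; the edges of the diagram form an octahedron. -/
def borromean : Diagram where
  W := Fin 4
  B := Fin 4
  C := Fin 6
  finW := inferInstance
  finB := inferInstance
  w₁ := ![0, 1, 2, 3, 3, 3]
  b₁ := ![3, 3, 3, 1, 2, 0]
  w₂ := ![1, 2, 0, 0, 1, 2]
  b₂ := ![2, 0, 1, 2, 0, 1]
  starW := ![[(0, false), (2, true), (3, true)], [(0, true), (4, true), (1, false)],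
    [(1, true), (5, true), (2, false)], [(3, false), (5, false), (4, false)]]
  starB := ![[(1, true), (5, false), (4, true)], [(2, true), (3, false), (5, true)],
    [(0, true), (4, false), (3, true)], [(0, false), (2, false), (1, false)]]
  white := by
    refine ⟨by decide, by decide, fun v => ?_⟩
    fin_cases v
    · exact ⟨2, rfl, rfl, rfl, rfl⟩
    · exact ⟨3, rfl, rfl, rfl, rfl⟩
    · exact ⟨3, rfl, rfl, rfl, rfl⟩
    · exact ⟨2, rfl, rfl, rfl, rfl⟩
  black := by
    refine ⟨by decide, by decide, fun v => ?_⟩
    fin_cases v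
    · exact ⟨1, rfl, rfl, rfl, rfl⟩
    · exact ⟨2, rfl, rfl, rfl, rfl⟩
    · exact ⟨0, rfl, rfl, rfl, rfl⟩
    · exact ⟨1, rfl, rfl, rfl, rfl⟩
  connW := by
    refine near_all 3 fun v => ?_
    fin_cases v
    · exact ReflTransGen.single ⟨(3, true), trivial, rfl, rfl⟩
    · exact ReflTransGen.single ⟨(4, true), trivial, rfl, rfl⟩
    · exact ReflTransGen.single ⟨(5, true), trivial, rfl, rfl⟩
    · exact ReflTransGen.refl
  connB := by
    refine near_all 3 fun v => ?_
    fin_cases v
    · exact ReflTransGen.single ⟨(1, true), trivial, rfl, rfl⟩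
    · exact ReflTransGen.single ⟨(2, true), trivial, rfl, rfl⟩
    · exact ReflTransGen.single ⟨(0, true), trivial, rfl, rfl⟩
    · exact ReflTransGen.refl
  baseW := 0
  baseB := 0

/-- The first crossing is not nugatory. -/
theorem borromean_essential : borromean.Essential (0 : Fin 6) := by
  constructor
  · refine near_all (3 : Fin 4) fun v => ?_
    change Fin 4 at v
    fin_cases v
    · exact ReflTransGen.single ⟨((3 : Fin 6), true), show (3 : Fin 6) ≠ 0 by decide, rfl, rfl⟩
    · exact ReflTransGen.single ⟨((4 : Fin 6), true), show (4 : Fin 6) ≠ 0 by decide, rfl, rfl⟩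
    · exact ReflTransGen.single ⟨((5 : Fin 6), true), show (5 : Fin 6) ≠ 0 by decide, rfl, rfl⟩
    · exact ReflTransGen.refl
  · refine near_all (0 : Fin 4) fun v => ?_
    change Fin 4 at v
    fin_cases v
    · exact ReflTransGen.refl
    · exact ReflTransGen.single ⟨((5 : Fin 6), true), show (5 : Fin 6) ≠ 0 by decide, rfl, rfl⟩
    · exact ReflTransGen.single ⟨((4 : Fin 6), false), show (4 : Fin 6) ≠ 0 by decide, rfl, rfl⟩
    · exact ReflTransGen.single ⟨((1 : Fin 6), false), show (1 : Fin 6) ≠ 0 by decide, rfl, rfl⟩

end examples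

/-- The fundamental groups of the following closed manifolds are not left-orderable, and all
their homomorphisms to left-orderable groups are trivial.

(1) The double branched cover of the complement of all crossing balls of an alternating diagram, where to the
torus of the crossing `c` a member of the class (if `c ∈ S`) or a solid torus (if `c ∉ S`) is glued.

(2) The double cover of the exterior of `A` in the complement of all crossing balls of an alternating
diagram in a strip, where members and solid tori are glued to the tori of the crossings, and a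
solid torus with the slope `t ^ a * t₁ ^ b`, `a, b ≥ 0`, to the torus of `A`.

(3) Two members of the class, the first one with a distinguished interval of the first kind, such that
every slope is in the interior of the distinguished interval of one of the two sides.

(4) The exterior of a chain link, where to component `i + 1` a member of the class (if `i ∈ S`) or
a solid torus (if `i ∉ S`) is glued, for all `i < n`, and where the twist is `1` or `-1`, or it is `0`
and at least one filling is a member of the class. -/
theorem result :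
    (∀ (D : Diagram) (G : Type u) [Group G] (j : D.Grp →* G) (N : D.C → Type)
      [∀ c, Group (N c)] (js : ∀ c, N c →* G) (Q : ∀ c, Set (N c)) (S : Set D.C),
      (∀ c ∈ S, Member (N c) (Q c)) →
      (∀ c ∈ S, Both (js c '' Q c) (j (D.U c)) (j (D.V c))) →
      (∀ c ∉ S, Rational (j (D.U c)) (j (D.V c))) →
      j.range ⊔ ⨆ c ∈ S, (js c).range = ⊤ → NoOrders G) ∧
    (∀ (D : Pool.Agent.R649.BT.Alt.Diagram) (G : Type u) [Group G]
      (j : PresentedGroup (stripRel D) →* G) (N : D.C → Type) [∀ c, Group (N c)]
      (js : ∀ c, N c →* G) (Q : ∀ c, Set (N c)) (S : Set D.C) (a b : ℕ),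
      (∀ c ∈ S, Member (N c) (Q c)) →
      (∀ c ∈ S, Both (js c '' Q c) (j (cls D (D.u c))) (j (cls D (D.v c)))) →
      (∀ c ∉ S, Rational (j (cls D (D.u c))) (j (cls D (D.v c)))) →
      1 ≤ a + b → j (cls D D.t) ^ a * j (cls D D.t₁) ^ b = 1 →
      j.range ⊔ ⨆ c ∈ S, (js c).range = ⊤ → NoOrders G) ∧
    (∀ (N₁ N₂ : Type) (G : Type u) [Group N₁] [Group N₂] [Group G] (x e : N₁) (Q : Set N₂)
      (j₁ : N₁ →* G) (j₂ : N₂ →* G),
      Member N₁ (pos .quadrant x e) → Member N₂ Q → j₁.range ⊔ j₂.range = ⊤ →
        Both (j₂ '' Q) (j₁ x) (j₁ e)⁻¹ → NoOrders G) ∧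
    (∀ (G : Type u) [Group G] (n : ℕ) (o m : ℕ → G) (c s : ℕ → Bool) (N : ℕ → Type)
      [∀ i, Group (N i)] (js : ∀ i, N i →* G) (Q : ∀ i, Set (N i)) (S : Set ℕ),
      1 ≤ n → Link n o m c → (∀ i, s (i + n) = s i) →
      (∀ i ∈ S, i < n → Member (N i) (Q i)) →
      (∀ i ∈ S, i < n → Glued (js i '' Q i) (s (i + 1)) (o (i + 1)) (lon o m c i)) →
      (∀ i ∉ S, i < n → Solid (s (i + 1)) (o (i + 1)) (lon o m c i)) →
      ((twist n c s = 1 ∨ twist n c s = -1) ∨ (twist n c s = 0 ∧ ∃ i ∈ S, i < n)) →
      Subgroup.closure (Set.range o ∪ Set.range m) ⊔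
        ⨆ i ∈ {i | i ∈ S ∧ i < n}, (js i).range = ⊤ → NoOrders G) :=
  ⟨fun D _ _ j N _ js Q S hS glue solid gen =>
      noOrders fun _ _ ρ g p => act_plane D j N js Q S hS glue solid gen ρ g p,
    fun D _ _ j N _ js Q S a b hS glue solid hab hr gen =>
      noOrders fun _ _ ρ g p => act_strip D j N js Q S a b hS glue solid hab hr gen ρ g p,
    fun _ _ _ _ _ _ _ _ _ j₁ j₂ h₁ h₂ gen hb =>
      noOrders fun _ _ ρ g p => two_dir h₁.dir h₂.dir j₁ j₂ hb gen ρ p g,
    fun _ _ _ _ _ _ _ N _ js Q S hn link per hS glue solid tw gen =>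
      noOrders fun _ _ ρ g p => act_chain hn link per N js Q S hS glue solid tw gen ρ g p⟩

end Pool.Agent.Results.MP_3d425c_gt.AlternatingPieces
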