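import Pool.Agent.L7h81.Pm.Rep3
import Pool.Agent.L7h81.Pz.Kernel
import Pool.Agent.L7h26.Pm.Low
import Pool.Agent.L7h26.Pm.Cont
import Pool.Agent.L7h61.Pm.Lift
import Pool.Agent.L7h81.Pm.High
import Pool.Agent.L7h81.Pm.Ev2

set_option autoImplicit false

/-!
# Cyclic branched covers of pretzel links with odd columns of any signs: actions on the line

Let `m 0, …, m (k-1)` be odd integers of any signs, `n ≥ 2`, and

  `F = arctan (cot (π / n) / m 0) + … + arctan (cot (π / n) / m (k-1))`.

If `|F| > π`, or if `F` and `1 / m 0 + … + 1 / m (k-1)` have opposite signs, then the fundamental group of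
the `n`-fold cyclic branched cover of the pretzel knot or link `P(m 0, …, m (k-1))` acts nontrivially on the
line by orientation-preserving homeomorphisms, that is, it has a nontrivial homomorphism to the
left-orderable group `ℝ ≃o ℝ`.  (By a theorem of Boyer, Rolfsen and Wiest the fundamental group is then
left-orderable whenever the cover is irreducible.)  The link is oriented such that the two strands of each
column are antiparallel (this matters for even `k` only; then it has two components), and the cover belongs to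
the map to `Z/n` that sends all meridians to `1`.  (In Lean `Real.cot (π / n) = 0` for `n < 3`, so that nothing is
said about `n < 3`.)

Let `δ = ∑ sign (m j)` be the number of positive minus the number of negative columns.  If `|δ| ≥ 3`, or if `δ`
and `∑ 1 / m j` have opposite signs, the condition holds for all `n > 2 ∑ |m j|`, since `F` differs from `δ π / 2` by
at most `tan (π / n) ∑ |m j|`.

The link bounds the surface of the diagram (two discs, `k` bands); at `ω = exp (2 i θ)` the determinant of its
Hermitian form `(1 - ω) V + (1 - ω⁻¹) Vᵀ` is a multiple of the imaginary part of `∏ (m j + i cot θ)`, so it vanishes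
exactly when `F(θ) = ∑ arctan (cot θ / m j)` is a multiple of `π`.  When `θ` runs from `π / 2` to `0` the number
`F(θ)` runs from `0` (leaving it with the sign of `∑ 1 / m j`) to `δ π / 2`.  So, for `∑ 1 / m j ≠ 0` and up to
borderline values, the condition says that the Levine-Tristram signatures of the link at `exp (2 π i / n)` and
at `-1` are different.  For positive columns (`PretzelCoverOrders`, which this result replaces) this means that
the Hermitian form at `exp (2 π i / n)` is not definite.

For `k = 3` and positive columns this is, as far as we remember, a theorem of Khan and Tran (Classical pretzel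
knots and left orderability), for columns `1` it is classical (torus links), for some 2-bridge knots (`k = 3`, one
column `± 1`) there is work of Hu and Tran.  Culler and Dunfield (Orderability and Dehn filling) have a theorem
for all large `n` for knots with lean exterior and a simple root of the Alexander polynomial on the unit circle,
which should apply to `k = 3`; Boyer, Gordon and Hu (Recalibrating R-order trees) treat all `n` for hyperbolic links
with a pseudo-Anosov flow whose degeneracy locus is not meridional (never for alternating knots, so not for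
positive columns).  We know of no earlier work for `k ≥ 4` in general.

Idea.  The meridians `a j` at the top of the diagram go to rotations by `2 π / n` of the hyperbolic plane.  For a
column with `m = 2 L + 1` crossings between `a j` and `a (j+1)` put `X = a j * (a (j+1))⁻¹`; the element
`X ^ (-L) * a (j+1) * X ^ L * a j` has to be the same element `Γ` for all columns.  `Γ` has trace `2 (1 - 2 p)`, it is
elliptic, parabolic or hyperbolic according to `p < 1`, `p = 1`, `p > 1`; in all cases `Γ = (1 - 2 p) + 2 p G`,
`G ^ 2 = -w`, `w = (1 - p) / p`, and `a (j+1)` is the conjugate of `a j` by `1 - τ_j G`, with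
`τ_j = ± tanh y_j / tanh (|m j| y_j)`, `y_j > 0` the solution of
`(1 - cos² (π / n) / cosh² y) * cosh² (|m j| y) = p`, and the sign that of `m j`.  So the meridians close up if
`∏ (1 - τ_j G) = a + b G` has `b = 0`.  For `p → sin² (π / n)` the sum of the angles `arctan (τ_j √w)` tends to `F`; for
`p → ∞` the sign of `b` is that of `- ∑ 1 / m j`, since `log ((1 + |τ_j| s) / (1 - |τ_j| s))`, `s = √(-w)`, is
`log p / |m j|` up to a bounded error.  The intermediate value theorem gives a `p` with `b = 0`.  The
representation in `PSL(2, ℝ)` lifts to the group of homeomorphisms of the line commuting with `x ↦ x + 1`: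
all meridians go to conjugates of `x ↦ x + 1 / n`.
-/

namespace Pool.Agent.Results.MP_3d425c_gt.PretzelCoversAnySigns

/-- A nontrivial group is left-orderable if it carries a strict total order that is invariant
under left multiplication. -/
def LeftOrderable (G : Type*) [Group G] : Prop :=
  Nontrivial G ∧ ∃ lt : G → G → Prop, IsStrictTotalOrder G lt ∧
    ∀ a b c : G, lt a b ↔ lt (c * a) (c * b)

/-- One crossing of a vertical twist region: if the two strands, both oriented downwards, have
meridians `(x, y)` (left, right) above the crossing, then they have meridians `(y, y⁻¹ x y)`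
below it.  The inverse is the crossing of the other handedness. -/
def crossing (G : Type*) [Group G] : Equiv.Perm (G × G) where
  toFun w := (w.2, w.2⁻¹ * w.1 * w.2)
  invFun w := (w.1 * w.2 * w.1⁻¹, w.1)
  left_inv w := by ext <;> simp [mul_assoc]
  right_inv w := by ext <;> simp [mul_assoc]

section defs
variable {k : ℕ}

/-- The meridian `a j` of the arc at the top of the diagram that joins the top right end of
column `j - 1` to the top left end of column `j` (`j` modulo `k`), oriented into column `j`. -/
def arc (j : ZMod k) : FreeGroup (ZMod k) := FreeGroup.of j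

/-- The downward meridians of the two strands at the bottom of column `j`, which has `m j`
crossings; at the top they are `a j` and `(a (j+1))⁻¹`. -/
def bottom (m : ZMod k → ℤ) (j : ZMod k) : FreeGroup (ZMod k) × FreeGroup (ZMod k) :=
  (crossing (FreeGroup (ZMod k)) ^ m j) (arc j, (arc (j + 1))⁻¹)

/-- The bottom right end of column `j` is joined to the bottom left end of column `j + 1`. -/
def relator (m : ZMod k → ℤ) (j : ZMod k) : FreeGroup (ZMod k) :=
  (bottom m j).2 * (bottom m (j + 1)).1

/-- The group of the pretzel link with columns of `m 0`, …, `m (k-1)` crossings. -/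
abbrev PretzelGroup (m : ZMod k → ℤ) : Type := PresentedGroup (Set.range (relator m))

/-- The quotient of the pretzel group by the `n`-th powers of the meridians `a j`. -/
abbrev OrbifoldGroup (m : ZMod k → ℤ) (n : ℕ) : Type :=
  PresentedGroup (Set.range (relator m) ∪ Set.range fun j => arc j ^ n)

end defs

section formulas
variable {G : Type*} [Group G]

theorem crossing_two (w : G × G) : (crossing G ^ (2 : ℤ)) w =
    ((w.1 * w.2)⁻¹ * w.1 * (w.1 * w.2), (w.1 * w.2)⁻¹ * w.2 * (w.1 * w.2)) := by
  rw [show (2 : ℤ) = ((2 : ℕ) : ℤ) from rfl, zpow_natCast, pow_two]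
  show crossing G (crossing G w) = _
  ext
  · show w.2⁻¹ * w.1 * w.2 = _
    simp only; group
  · show (w.2⁻¹ * w.1 * w.2)⁻¹ * w.2 * (w.2⁻¹ * w.1 * w.2) = _
    simp only; group

theorem crossing_even_nat (x y : G) (l : ℕ) : ((crossing G ^ (2 : ℤ)) ^ l) (x, y) =
    ((x * y) ^ (-(l : ℤ)) * x * (x * y) ^ (l : ℤ), (x * y) ^ (-(l : ℤ)) * y * (x * y) ^ (l : ℤ)) := by
  induction l with
  | zero => simp
  | succ l ih =>
    rw [pow_succ', Equiv.Perm.mul_apply, ih, crossing_two]
    set P := x * y with hP
    have h1 : (P ^ (-(l : ℤ)) * x * P ^ (l : ℤ)) * (P ^ (-(l : ℤ)) * y * P ^ (l : ℤ)) = P := by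
      calc _ = P ^ (-(l : ℤ)) * (x * y) * P ^ (l : ℤ) := by group
        _ = P := by rw [← hP]; group
    simp only [h1]
    push_cast
    ext
    · simp only; group
    · simp only; group

theorem crossing_even (x y : G) (l : ℤ) : (crossing G ^ (2 * l)) (x, y) =
    ((x * y) ^ (-l) * x * (x * y) ^ l, (x * y) ^ (-l) * y * (x * y) ^ l) := by
  rw [zpow_mul]
  rcases Int.eq_nat_or_neg l with ⟨l, rfl | rfl⟩
  · rw [zpow_natCast]; exact crossing_even_nat x y l
  · rw [zpow_neg, zpow_natCast, Equiv.Perm.inv_eq_iff_eq, crossing_even_nat]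
    set P := x * y with hP
    have h1 : (P ^ (-(-(l : ℤ))) * x * P ^ (-(l : ℤ))) * (P ^ (-(-(l : ℤ))) * y * P ^ (-(l : ℤ)))
        = P := by
      calc _ = P ^ ((l : ℤ)) * (x * y) * P ^ (-(l : ℤ)) := by group
        _ = P := by rw [← hP]; group
    simp only [h1]
    ext
    · simp only; group
    · simp only; group

theorem crossing_odd (x y : G) (l : ℤ) : (crossing G ^ (2 * l + 1)) (x, y) =
    ((x * y) ^ (-l) * y * (x * y) ^ l, (x * y) ^ (-l - 1) * x * (x * y) ^ (l + 1)) := by
  rw [add_comm, zpow_one_add, Equiv.Perm.mul_apply, crossing_even]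
  set P := x * y with hP
  have hy : y = x⁻¹ * P := by rw [hP]; group
  show ((P ^ (-l) * y * P ^ l), (P ^ (-l) * y * P ^ l)⁻¹ * (P ^ (-l) * x * P ^ l) *
    (P ^ (-l) * y * P ^ l)) = _
  ext
  · rfl
  · simp only
    calc (P ^ (-l) * y * P ^ l)⁻¹ * (P ^ (-l) * x * P ^ l) * (P ^ (-l) * y * P ^ l)
        = P ^ (-l) * (y⁻¹ * (x * y)) * P ^ l := by group
      _ = P ^ (-l) * (y⁻¹ * P) * P ^ l := by rw [← hP]
      _ = P ^ (-l - 1) * (P * y⁻¹) * P ^ (l + 1) := by group
      _ = P ^ (-l - 1) * x * P ^ (l + 1) := by rw [hP]; group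

end formulas

section links
variable {k : ℕ}

theorem bottom_odd (m : ZMod k → ℤ) (j : ZMod k) (l : ℤ) (h : m j = 2 * l + 1) :
    bottom m j = ((arc j * (arc (j + 1))⁻¹) ^ (-l) * (arc (j + 1))⁻¹ *
        (arc j * (arc (j + 1))⁻¹) ^ l,
      (arc j * (arc (j + 1))⁻¹) ^ (-l - 1) * arc j * (arc j * (arc (j + 1))⁻¹) ^ (l + 1)) := by
  unfold bottom
  rw [h, crossing_odd]

theorem rel_formula {G : Type*} [Group G] (μ : FreeGroup (ZMod k) →* G) (m : ZMod k → ℤ)
    (j : ZMod k) (l l' : ℤ) (h : m j = 2 * l + 1) (h' : m (j + 1) = 2 * l' + 1)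
    (hr : μ (relator m j) = 1) :
    (μ (arc j) * (μ (arc (j + 1)))⁻¹) ^ (-l - 1) * μ (arc j) *
      (μ (arc j) * (μ (arc (j + 1)))⁻¹) ^ (l + 1) *
      ((μ (arc (j + 1)) * (μ (arc (j + 1 + 1)))⁻¹) ^ (-l') * (μ (arc (j + 1 + 1)))⁻¹ *
        (μ (arc (j + 1)) * (μ (arc (j + 1 + 1)))⁻¹) ^ l') = 1 := by
  unfold relator at hr
  rw [bottom_odd m j l h, bottom_odd m (j + 1) l' h'] at hr
  simpa only [map_mul, map_zpow, map_inv] using hr

/-- The relators of the orbifold group have degree `0`. -/
theorem degree_rel (m : ZMod k → ℤ) (hm : ∀ j, Odd (m j)) (n : ℕ) :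
    ∀ w ∈ Set.range (relator m) ∪ Set.range (fun j => arc j ^ n),
      FreeGroup.lift (fun _ : ZMod k => (Multiplicative.ofAdd 1 : Multiplicative (ZMod n))) w
        = 1 := by
  rintro w (⟨j, rfl⟩ | ⟨j, rfl⟩)
  · obtain ⟨l, hl⟩ := hm j
    obtain ⟨l', hl'⟩ := hm (j + 1)
    unfold relator
    rw [bottom_odd m j l hl, bottom_odd m (j + 1) l' hl']
    simp [arc]
  · simp only [arc, map_pow, FreeGroup.lift_apply_of]
    rw [← ofAdd_nsmul]
    simp

/-- The homomorphism of the orbifold group to `Z/n` that sends all meridians `a j` to `1`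
(for odd columns `m j`). -/
def degree (m : ZMod k → ℤ) (hm : ∀ j, Odd (m j)) (n : ℕ) :
    OrbifoldGroup m n →* Multiplicative (ZMod n) :=
  PresentedGroup.toGroup (degree_rel m hm n)

/-- The fundamental group of the `n`-fold cyclic branched cover of the pretzel knot or link with
columns of `m 0`, …, `m (k-1)` crossings: the kernel of the homomorphism to `Z/n` from the quotient
of the link group by the `n`-th powers of the meridians. -/
abbrev CoverGroup (m : ZMod k → ℤ) (hm : ∀ j, Odd (m j)) (n : ℕ) : Type :=
  (degree m hm n).ker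

end links


theorem lo_line : LeftOrderable (ℝ ≃o ℝ) := by
  refine ⟨⟨⟨OrderIso.refl ℝ, OrderIso.addRight 1, ?_⟩⟩, Pool.Agent.L7h81.Pz.orderIso_lo⟩
  intro h
  have := DFunLike.congr_fun h 0
  simp at this

open Pool.Agent.L7h81.Pz Pool.Agent.L7h81.Pm CircleDeg1Lift in
theorem cover_acts {k : ℕ} [NeZero k] (n : ℕ) (m : ZMod k → ℤ)
    (hm : ∀ j, Odd (m j))
    (hcond : Real.pi < |∑ j, Real.arctan (Real.cot (Real.pi / n) / m j)| ∨
      (∑ j, Real.arctan (Real.cot (Real.pi / n) / m j)) * ∑ j, 1 / (m j : ℝ) < 0) :
    ∃ f : CoverGroup m hm n →* (ℝ ≃o ℝ), ∃ g, f g ≠ 1 := by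
  have hn : n ≠ 0 := by
    rintro rfl
    have h0 : Real.cot (Real.pi / ((0 : ℕ) : ℝ)) = 0 := cot_small (by norm_num)
    simp only [h0, zero_div, Real.arctan_zero, Finset.sum_const_zero, abs_zero, zero_mul] at hcond
    rcases hcond with h | h
    · exact absurd h (not_lt.2 Real.pi_pos.le)
    · exact lt_irrefl _ h
  have hm' := hm
  choose L hL using hm'
  have hcast : ∀ j, (m j : ℝ) = 2 * (L j : ℝ) + 1 := by
    intro j; rw [hL j]; push_cast; ring
  simp only [hcast] at hcond
  obtain ⟨a, hrel, hpow, hne⟩ := rep_any s_HIGH Pool.Agent.L7h26.Pm.s_LOW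
    Pool.Agent.L7h26.Pm.s_CONT Pool.Agent.L7h61.Pm.s_LIFT n L hcond
  have hz : ∀ g : CircleDeg1Liftˣ, g * translate (Multiplicative.ofAdd 1) =
    translate (Multiplicative.ofAdd 1) * g := translate_one_comm
  obtain ⟨f, hf⟩ := kernel_hom (R := Set.range (relator m) ∪
      Set.range fun j => arc j ^ n) hn (degree m hm n)
    (fun i => PresentedGroup.toGroup.of _) a (translate (Multiplicative.ofAdd 1)) hz (by
      rintro w (⟨j, rfl⟩ | ⟨j, rfl⟩)
      · refine ⟨0, ?_, ?_⟩
        · rw [zpow_zero]
          unfold relator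
          rw [bottom_odd m j (L j) (hL j), bottom_odd m (j + 1) (L (j + 1)) (hL (j + 1))]
          simp only [arc, map_mul, map_zpow, map_inv, FreeGroup.lift_apply_of]
          exact (rr_iff _ _ _ _ _).2 (hrel j)
        · unfold relator
          rw [bottom_odd m j (L j) (hL j), bottom_odd m (j + 1) (L (j + 1)) (hL (j + 1))]
          simp [arc, fdeg]
      · refine ⟨1, ?_, ?_⟩
        · simp only [arc, map_pow, FreeGroup.lift_apply_of]
          rw [hpow j, zpow_one]
        · simp [arc, fdeg])
  have hdeg : PresentedGroup.of (0 : ZMod k) * (PresentedGroup.of (1 : ZMod k))⁻¹ ∈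
      (degree m hm n).ker := by
    rw [MonoidHom.mem_ker, map_mul, map_inv]
    have h1 : ∀ i, degree m hm n (PresentedGroup.of i) =
      Multiplicative.ofAdd 1 := fun i => PresentedGroup.toGroup.of _
    rw [h1, h1, mul_inv_cancel]
  refine ⟨toOrderIso.comp f, ⟨_, hdeg⟩, ?_⟩
  intro h
  have h1 : toOrderIso (a 0 * (a 1)⁻¹) = 1 := by
    rw [← hf 0 1 hdeg]; exact h
  have hne' := hne 0
  rw [zero_add] at hne'
  apply hne'
  rw [← mul_inv_eq_one]
  ext x
  have h2 := DFunLike.congr_fun h1 x
  rw [coe_toOrderIso] at h2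
  exact h2

/-- If `F = ∑ j, arctan (cot (π / n) / m j)` satisfies `|F| > π`, or if `F` and `∑ j, 1 / m j` have opposite
signs, then the fundamental group of the `n`-fold cyclic branched cover of the pretzel link with odd columns
`m 0`, …, `m (k-1)` of any signs has a nontrivial homomorphism to the left-orderable group of order automorphisms
of the line; this is so for all `n > 2 ∑ j, |m j|` if the number `∑ j, sign (m j)` is at least `3` or at most
`-3`, or if it and `∑ j, 1 / m j` have opposite signs. -/
theorem result :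
    LeftOrderable (ℝ ≃o ℝ) ∧
    (∀ (k : ℕ) [NeZero k] (n : ℕ) (m : ZMod k → ℤ) (hm : ∀ j, Odd (m j)),
      (Real.pi < |∑ j, Real.arctan (Real.cot (Real.pi / n) / m j)| ∨
        (∑ j, Real.arctan (Real.cot (Real.pi / n) / m j)) * ∑ j, 1 / (m j : ℝ) < 0) →
      ∃ f : CoverGroup m hm n →* (ℝ ≃o ℝ), ∃ g, f g ≠ 1) ∧
    (∀ (k : ℕ) [NeZero k] (m : ZMod k → ℤ) (hm : ∀ j, Odd (m j)),
      (3 ≤ |∑ j, (m j).sign| ∨ (∑ j, ((m j).sign : ℝ)) * ∑ j, 1 / (m j : ℝ) < 0) →
      ∀ n : ℕ, 2 * ∑ j, |m j| < n → ∃ f : CoverGroup m hm n →* (ℝ ≃o ℝ), ∃ g, f g ≠ 1) :=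
  ⟨lo_line, fun _ _ n m hm h => cover_acts n m hm h,
    fun _ _ m hm h n hn => cover_acts n m hm (Pool.Agent.L7h81.Pm.ev_explicit m hm h n hn)⟩

end Pool.Agent.Results.MP_3d425c_gt.PretzelCoversAnySigns
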