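import Pool.Agent.L7h40.P3.Group

set_option autoImplicit false

/-!
# Threefold cyclic branched covers of the pretzel knots P(2a+1, -(2q+1), 2b+1)

For all `a, b ≥ 1` and `q ≥ 2 min(a, b)`, every homomorphism from the fundamental group of the
threefold cyclic branched cover of the pretzel knot `P(2a+1, -(2q+1), 2b+1)` to a left-orderable
group is trivial.  In particular this fundamental group is not left-orderable.

Idea.  The group is generated by `X i, v i, w i` (`i` modulo 3), `X i = v i * w i`.  Put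
`A i = X i ^ (-(a+1)) * v i ^ (q+1)`, `B i = w i ^ b * v i ^ q`, `C i = B i * (A i)⁻¹ =
w i ^ (b+1) * X i ^ a`; the relations are `A (i+1) = A i * w i`, `B (i+1) = B i * X i`, so that
`w 0 * w 1 * w 2 = X 0 * X 1 * X 2 = 1`.  Let the group act by order automorphisms on a complete
linear order.  Say `q ≥ 2a`.
(1) At every point the three `C i` have the same sign or the point is fixed by the group; so on
every component of the complement of the fixed points we may assume `C i > id` for all `i`.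
(2) Then `A i < id` and `B i > id` at every point (`S_excl`, `B_excl`).
(3) Two of the `w i` never move the same point down (`P_excl`); so, by the intermediate value
theorem, one of them, say `w 2`, moves all points of a half line down and then `v 2 > X 2` there,
hence `v 2 ^ (q+1) > X 2 ^ (a+1)`, which contradicts `A 2 < id`.
(4) An algebraic symmetry of the relations exchanges `a` and `b` (`Sys.flip`).

The definitions and the computations with the diagram are adapted from the starting result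
`MP_9ae2f3_gt.PretzelTwoParameters` (helper463), the cyclic kernel and the action on the lower sets
are from the starting library (helper821, helper705).
-/

namespace Pool.Agent.Results.MP_3d425c_gt.PretzelThreefoldMixedSigns

/-- A nontrivial group is left-orderable if it carries a strict total order that is invariant
under left multiplication. -/
def LeftOrderable (G : Type*) [Group G] : Prop :=
  Nontrivial G ∧ ∃ lt : G → G → Prop, IsStrictTotalOrder G lt ∧
    ∀ a b c : G, lt a b ↔ lt (c * a) (c * b)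

/-- One crossing of a vertical twist region: if the two strands, both oriented downwards, have
meridians `(x, y)` (left, right) above the crossing, then they have meridians `(y, y⁻¹ x y)`
below it.  The inverse is the crossing of the other handedness. -/
def crossing (G : Type*) [Group G] : Equiv.Perm (G × G) where
  toFun w := (w.2, w.2⁻¹ * w.1 * w.2)
  invFun w := (w.1 * w.2 * w.1⁻¹, w.1)
  left_inv w := by ext <;> simp [mul_assoc]
  right_inv w := by ext <;> simp [mul_assoc]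

/-- The meridian `a j` of the arc at the top of the diagram that joins the top right end of
column `j - 1` to the top left end of column `j`, oriented into column `j`. -/
def arc (j : Fin 3) : FreeGroup (Fin 3) := FreeGroup.of j

/-- The downward meridians of the two strands at the bottom of column `j`, which has `m j`
crossings; at the top they are `a j` and `(a (j+1))⁻¹`. -/
def bottom (m : Fin 3 → ℤ) (j : Fin 3) : FreeGroup (Fin 3) × FreeGroup (Fin 3) :=
  (crossing (FreeGroup (Fin 3)) ^ m j) (arc j, (arc (j + 1))⁻¹)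

/-- The bottom right end of column `j` is joined to the bottom left end of column `j + 1`. -/
def relator (m : Fin 3 → ℤ) (j : Fin 3) : FreeGroup (Fin 3) :=
  (bottom m j).2 * (bottom m (j + 1)).1

/-- The group of the pretzel link with columns of `m 0`, `m 1`, `m 2` crossings. -/
abbrev PretzelGroup (m : Fin 3 → ℤ) : Type := PresentedGroup (Set.range (relator m))

/-- The quotient of the pretzel group by the `n`-th power of the meridian `a 0`. -/
abbrev OrbifoldGroup (m : Fin 3 → ℤ) (n : ℕ) : Type :=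
  PresentedGroup (Set.range (relator m) ∪ {arc 0 ^ n})

/-- The columns `2a+1, -(2q+1), 2b+1`. -/
def columns (a q b : ℕ) : Fin 3 → ℤ := ![2 * (a : ℤ) + 1, -(2 * (q : ℤ) + 1), 2 * (b : ℤ) + 1]

section formulas
variable {G : Type*} [Group G]

theorem crossing_two (w : G × G) : (crossing G ^ (2 : ℤ)) w =
    ((w.1 * w.2)⁻¹ * w.1 * (w.1 * w.2), (w.1 * w.2)⁻¹ * w.2 * (w.1 * w.2)) := by
  rw [show (2 : ℤ) = ((2 : ℕ) : ℤ) from rfl, zpow_natCast, pow_two]
  show crossing G (crossing G w) = _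
  ext
  · show w.2⁻¹ * w.1 * w.2 = _
    simp only; group
  · show (w.2⁻¹ * w.1 * w.2)⁻¹ * w.2 * (w.2⁻¹ * w.1 * w.2) = _
    simp only; group

theorem crossing_even_nat (x y : G) (l : ℕ) : ((crossing G ^ (2 : ℤ)) ^ l) (x, y) =
    ((x * y) ^ (-(l : ℤ)) * x * (x * y) ^ (l : ℤ), (x * y) ^ (-(l : ℤ)) * y * (x * y) ^ (l : ℤ)) := by
  induction l with
  | zero => simp
  | succ l ih =>
    rw [pow_succ', Equiv.Perm.mul_apply, ih, crossing_two]
    set P := x * y with hP
    have h1 : (P ^ (-(l : ℤ)) * x * P ^ (l : ℤ)) * (P ^ (-(l : ℤ)) * y * P ^ (l : ℤ)) = P := by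
      calc _ = P ^ (-(l : ℤ)) * (x * y) * P ^ (l : ℤ) := by group
        _ = P := by rw [← hP]; group
    simp only [h1]
    push_cast
    ext
    · simp only; group
    · simp only; group

theorem crossing_even (x y : G) (l : ℤ) : (crossing G ^ (2 * l)) (x, y) =
    ((x * y) ^ (-l) * x * (x * y) ^ l, (x * y) ^ (-l) * y * (x * y) ^ l) := by
  rw [zpow_mul]
  rcases Int.eq_nat_or_neg l with ⟨l, rfl | rfl⟩
  · rw [zpow_natCast]; exact crossing_even_nat x y l
  · rw [zpow_neg, zpow_natCast, Equiv.Perm.inv_eq_iff_eq, crossing_even_nat]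
    set P := x * y with hP
    have h1 : (P ^ (-(-(l : ℤ))) * x * P ^ (-(l : ℤ))) * (P ^ (-(-(l : ℤ))) * y * P ^ (-(l : ℤ)))
        = P := by
      calc _ = P ^ ((l : ℤ)) * (x * y) * P ^ (-(l : ℤ)) := by group
        _ = P := by rw [← hP]; group
    simp only [h1]
    ext
    · simp only; group
    · simp only; group

theorem crossing_odd (x y : G) (l : ℤ) : (crossing G ^ (2 * l + 1)) (x, y) =
    ((x * y) ^ (-l) * y * (x * y) ^ l, (x * y) ^ (-l - 1) * x * (x * y) ^ (l + 1)) := by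
  rw [add_comm, zpow_one_add, Equiv.Perm.mul_apply, crossing_even]
  set P := x * y with hP
  have hy : y = x⁻¹ * P := by rw [hP]; group
  show ((P ^ (-l) * y * P ^ l), (P ^ (-l) * y * P ^ l)⁻¹ * (P ^ (-l) * x * P ^ l) *
    (P ^ (-l) * y * P ^ l)) = _
  ext
  · rfl
  · simp only
    calc (P ^ (-l) * y * P ^ l)⁻¹ * (P ^ (-l) * x * P ^ l) * (P ^ (-l) * y * P ^ l)
        = P ^ (-l) * (y⁻¹ * (x * y)) * P ^ l := by group
      _ = P ^ (-l) * (y⁻¹ * P) * P ^ l := by rw [← hP]
      _ = P ^ (-l - 1) * (P * y⁻¹) * P ^ (l + 1) := by group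
      _ = P ^ (-l - 1) * x * P ^ (l + 1) := by rw [hP]; group

end formulas

theorem bottom_odd (m : Fin 3 → ℤ) (j : Fin 3) (l : ℤ) (h : m j = 2 * l + 1) :
    bottom m j = ((arc j * (arc (j + 1))⁻¹) ^ (-l) * (arc (j + 1))⁻¹ *
        (arc j * (arc (j + 1))⁻¹) ^ l,
      (arc j * (arc (j + 1))⁻¹) ^ (-l - 1) * arc j * (arc j * (arc (j + 1))⁻¹) ^ (l + 1)) := by
  unfold bottom
  rw [h, crossing_odd]

theorem rel_formula {G : Type*} [Group G] (μ : FreeGroup (Fin 3) →* G) (m : Fin 3 → ℤ)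
    (j : Fin 3) (l l' : ℤ) (h : m j = 2 * l + 1) (h' : m (j + 1) = 2 * l' + 1)
    (hr : μ (relator m j) = 1) :
    (μ (arc j) * (μ (arc (j + 1)))⁻¹) ^ (-l - 1) * μ (arc j) *
      (μ (arc j) * (μ (arc (j + 1)))⁻¹) ^ (l + 1) *
      ((μ (arc (j + 1)) * (μ (arc (j + 1 + 1)))⁻¹) ^ (-l') * (μ (arc (j + 1 + 1)))⁻¹ *
        (μ (arc (j + 1)) * (μ (arc (j + 1 + 1)))⁻¹) ^ l') = 1 := by
  unfold relator at hr
  rw [bottom_odd m j l h, bottom_odd m (j + 1) l' h'] at hr
  simpa only [map_mul, map_zpow, map_inv] using hr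

/-- The relators of the orbifold group have degree `0`. -/
theorem degree_rel (m : Fin 3 → ℤ) (hm : ∀ j, Odd (m j)) (n : ℕ) :
    ∀ w ∈ Set.range (relator m) ∪ {arc 0 ^ n},
      FreeGroup.lift (fun _ : Fin 3 => (Multiplicative.ofAdd 1 : Multiplicative (ZMod n))) w
        = 1 := by
  rintro w (⟨j, rfl⟩ | rfl)
  · obtain ⟨l, hl⟩ := hm j
    obtain ⟨l', hl'⟩ := hm (j + 1)
    unfold relator
    rw [bottom_odd m j l hl, bottom_odd m (j + 1) l' hl']
    simp [arc]
  · simp only [arc, map_pow, FreeGroup.lift_apply_of]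
    rw [← ofAdd_nsmul]
    simp

/-- The homomorphism of the orbifold group to `Z/n` that sends all meridians `a j` to `1`
(for odd `m 0`, `m 1`, `m 2`, in which case the pretzel link is a knot). -/
def degree (m : Fin 3 → ℤ) (hm : ∀ j, Odd (m j)) (n : ℕ) :
    OrbifoldGroup m n →* Multiplicative (ZMod n) :=
  PresentedGroup.toGroup (degree_rel m hm n)

/-- The fundamental group of the `n`-fold cyclic branched cover of the pretzel knot with columns
of `m 0`, `m 1`, `m 2` crossings: the kernel of the homomorphism to `Z/n` from the quotient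
of the knot group by the `n`-th power of a meridian. -/
abbrev CoverGroup (m : Fin 3 → ℤ) (hm : ∀ j, Odd (m j)) (n : ℕ) : Type :=
  (degree m hm n).ker

theorem columns_odd (a q b : ℕ) : ∀ j, Odd (columns a q b j) := by
  intro j
  fin_cases j
  · exact ⟨(a : ℤ), rfl⟩
  · exact ⟨-((q : ℤ) + 1), by show -(2 * (q : ℤ) + 1) = _; ring⟩
  · exact ⟨(b : ℤ), rfl⟩

/-- `G` has no nontrivial homomorphism to a left-orderable group; in particular it is not
left-orderable. -/
theorem not_lo {G : Type} [Group G]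
    (h : ∀ (H : Type) [Group H], LeftOrderable H → ∀ f : G →* H, ∀ g, f g = 1) :
    ¬ LeftOrderable G := by
  intro hG
  obtain ⟨a, b, hab⟩ := hG.1
  have key := h G hG (MonoidHom.id _)
  exact hab ((key a).trans (key b).symm)

theorem lo_order {H : Type*} [Group H] (hH : LeftOrderable H) :
    ∃ _ : LinearOrder H, ∀ a b c : H, a ≤ b ↔ c * a ≤ c * b := by
  classical
  obtain ⟨_, lt, hlt, hinv⟩ := hH
  refine ⟨linearOrderOfSTO lt, ?_⟩
  intro a b c
  show (a = b ∨ lt a b) ↔ (c * a = c * b ∨ lt (c * a) (c * b))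
  rw [mul_right_inj, ← hinv]

theorem relA_aux {G : Type*} [Group G] (s X V : G) (a q : ℕ) (R : X ^ (-(a : ℤ) - 1) * s *
    X ^ ((a : ℤ) + 1) * (V ^ (-(-((q : ℤ) + 1))) * ((X * V)⁻¹ * s)⁻¹ *
      V ^ (-((q : ℤ) + 1))) = 1) :
    s * (X ^ (a + 1) * V ^ (q + 1)) * s⁻¹ = X ^ (a + 1) * V ^ (q + 1) * (X * V)⁻¹ := by
  have h1 : X ^ (-(a : ℤ) - 1) = (X ^ (a + 1))⁻¹ := by
    rw [show (-(a : ℤ) - 1) = -((a + 1 : ℕ) : ℤ) by push_cast; ring, zpow_neg, zpow_natCast]
  have h2 : X ^ ((a : ℤ) + 1) = X ^ (a + 1) := by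
    rw [show ((a : ℤ) + 1) = ((a + 1 : ℕ) : ℤ) by push_cast; ring, zpow_natCast]
  have h3 : V ^ (-(-((q : ℤ) + 1))) = V ^ (q + 1) := by
    rw [neg_neg, show ((q : ℤ) + 1) = ((q + 1 : ℕ) : ℤ) by push_cast; ring, zpow_natCast]
  have h4 : V ^ (-((q : ℤ) + 1)) = (V ^ (q + 1))⁻¹ := by
    rw [show ((q : ℤ) + 1) = ((q + 1 : ℕ) : ℤ) by push_cast; ring, zpow_neg, zpow_natCast]
  rw [h1, h2, h3, h4] at R
  set P := X ^ (a + 1) with hP
  set Q := V ^ (q + 1) with hQ
  calc s * (P * Q) * s⁻¹ = P * (P⁻¹ * s * P * (Q * ((X * V)⁻¹ * s)⁻¹ * Q⁻¹)) * Q * (X * V)⁻¹ := by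
          simp only [mul_inv_rev, inv_inv, mul_assoc, mul_inv_cancel_left, inv_mul_cancel_left,
            mul_inv_cancel, mul_one]
    _ = _ := by rw [R]; simp only [mul_one, mul_assoc]

theorem relB_aux {G : Type*} [Group G] (s X V Y : G) (q b : ℕ)
    (R : V ^ (-(-((q : ℤ) + 1)) - 1) * (X⁻¹ * s) * V ^ (-((q : ℤ) + 1) + 1) *
    (Y ^ (-(b : ℤ)) * s⁻¹ * Y ^ (b : ℤ)) = 1) :
    s * ((V ^ q)⁻¹ * (Y ^ b)⁻¹) * s⁻¹ = X * ((V ^ q)⁻¹ * (Y ^ b)⁻¹) := by
  have h1 : V ^ (-(-((q : ℤ) + 1)) - 1) = V ^ q := by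
    rw [neg_neg, add_sub_cancel_right, zpow_natCast]
  have h2 : V ^ (-((q : ℤ) + 1) + 1) = (V ^ q)⁻¹ := by
    rw [neg_add, neg_add_cancel_right, zpow_neg, zpow_natCast]
  have h3 : Y ^ (-(b : ℤ)) = (Y ^ b)⁻¹ := by rw [zpow_neg, zpow_natCast]
  have h4 : Y ^ (b : ℤ) = Y ^ b := zpow_natCast _ _
  rw [h1, h2, h3, h4] at R
  set U := V ^ q with hU
  set Z := Y ^ b with hZ
  calc s * (U⁻¹ * Z⁻¹) * s⁻¹ = X * U⁻¹ * (U * (X⁻¹ * s) * U⁻¹ * (Z⁻¹ * s⁻¹ * Z)) * Z⁻¹ := by
        simp only [mul_inv_rev, inv_inv, mul_assoc, mul_inv_cancel_left, inv_mul_cancel_left,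
            mul_inv_cancel, mul_one]
    _ = _ := by rw [R]; simp only [mul_one, mul_assoc]

theorem cover_trivial {a q b : ℕ} (ha : 0 < a) (hb : 0 < b) (hq : 2 * min a b ≤ q) {H : Type*}
    [Group H] (hH : LeftOrderable H) (f : CoverGroup (columns a q b) (columns_odd a q b) 3 →* H)
    (g : CoverGroup (columns a q b) (columns_odd a q b) 3) : f g = 1 := by
  obtain ⟨_, hinv⟩ := lo_order hH
  set m := columns a q b with hm
  set c : Fin 3 → OrbifoldGroup m 3 := fun j => PresentedGroup.of j with hc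
  have hs : c 0 ^ 3 = 1 := by
    have h1 : PresentedGroup.mk (Set.range (relator m) ∪ {arc 0 ^ 3}) (arc 0 ^ 3) = 1 :=
      PresentedGroup.one_of_mem (Or.inr rfl)
    rwa [map_pow] at h1
  set μ := PresentedGroup.mk (Set.range (relator m) ∪ {arc 0 ^ 3}) with hμ
  have hm0 : m 0 = 2 * (a : ℤ) + 1 := rfl
  have hm1 : m 1 = 2 * (-((q : ℤ) + 1)) + 1 := by
    show -(2 * (q : ℤ) + 1) = _; ring
  have hm1' : m (0 + 1) = 2 * (-((q : ℤ) + 1)) + 1 := hm1
  have hm2 : m (1 + 1) = 2 * (b : ℤ) + 1 := rfl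
  have R0 : (c 0 * (c 1)⁻¹) ^ (-(a : ℤ) - 1) * c 0 * (c 0 * (c 1)⁻¹) ^ ((a : ℤ) + 1) *
      ((c 1 * (c 2)⁻¹) ^ (-(-((q : ℤ) + 1))) * (c 2)⁻¹ *
        (c 1 * (c 2)⁻¹) ^ (-((q : ℤ) + 1))) = 1 :=
    rel_formula μ m 0 a (-((q : ℤ) + 1)) hm0 hm1' (PresentedGroup.one_of_mem (Or.inl ⟨0, rfl⟩))
  have R1 : (c 1 * (c 2)⁻¹) ^ (-(-((q : ℤ) + 1)) - 1) * c 1 *
      (c 1 * (c 2)⁻¹) ^ (-((q : ℤ) + 1) + 1) *
      ((c 2 * (c 0)⁻¹) ^ (-(b : ℤ)) * (c 0)⁻¹ * (c 2 * (c 0)⁻¹) ^ (b : ℤ)) = 1 :=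
    rel_formula μ m 1 (-((q : ℤ) + 1)) b hm1 hm2 (PresentedGroup.one_of_mem (Or.inl ⟨1, rfl⟩))
  set s := c 0 with hs0
  set X := s * (c 1)⁻¹ with hX
  set V := c 1 * (c 2)⁻¹ with hV
  have e1 : c 1 = X⁻¹ * s := by rw [hX]; group
  have e2 : c 2 = (X * V)⁻¹ * s := by rw [hV, hX]; group
  have e3 : c 2 * s⁻¹ = (X * V)⁻¹ := by rw [e2]; group
  rw [e3] at R1
  have A : s * (X ^ (a + 1) * V ^ (q + 1)) * s⁻¹ = X ^ (a + 1) * V ^ (q + 1) * (X * V)⁻¹ := by
    rw [e2] at R0
    exact relA_aux s X V a q R0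
  have B : s * ((V ^ q)⁻¹ * ((X * V)⁻¹ ^ b)⁻¹) * s⁻¹ =
      X * ((V ^ q)⁻¹ * ((X * V)⁻¹ ^ b)⁻¹) := by
    rw [e1] at R1
    exact relB_aux s X V ((X * V)⁻¹) q b R1
  have hgen : ∀ K : Subgroup (OrbifoldGroup m 3), s ∈ K → X ∈ K → V ∈ K → K = ⊤ := by
    intro K h1 h2 h3
    have key : ∀ j, c j ∈ K := by
      intro j
      fin_cases j
      · exact h1
      · show c 1 ∈ K
        rw [e1]; exact mul_mem (inv_mem h2) h1
      · show c 2 ∈ K
        rw [e2]; exact mul_mem (inv_mem (mul_mem h2 h3)) h1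
    rw [eq_top_iff, ← PresentedGroup.closure_range_of, Subgroup.closure_le]
    rintro _ ⟨j, rfl⟩
    exact key j
  have dc : ∀ j, degree m (columns_odd a q b) 3 (c j) = Multiplicative.ofAdd 1 :=
    fun j => PresentedGroup.toGroup.of _
  have dX : degree m (columns_odd a q b) 3 X = 1 := by
    rw [hX, map_mul, map_inv, hs0, dc, dc, mul_inv_cancel]
  have dV : degree m (columns_odd a q b) 3 V = 1 := by
    rw [hV, map_mul, map_inv, dc, dc, mul_inv_cancel]
  exact Pool.Agent.L7h40.P3.hom_trivial hs hgen _ (dc 0) dX dV ha hb hq A B hinv f g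

/-- **Threefold cyclic branched covers of the pretzel knots `P(2a+1, -(2q+1), 2b+1)`,
`a, b ≥ 1`, `q ≥ 2 min(a, b)`.** -/
theorem result (a q b : ℕ) (ha : 0 < a) (hb : 0 < b) (hq : 2 * min a b ≤ q) :
    ¬ LeftOrderable (CoverGroup (columns a q b) (columns_odd a q b) 3) ∧
    ∀ (H : Type) [Group H], LeftOrderable H →
      ∀ f : CoverGroup (columns a q b) (columns_odd a q b) 3 →* H, ∀ g, f g = 1 := by
  have h : ∀ (H : Type) [Group H], LeftOrderable H →
      ∀ f : CoverGroup (columns a q b) (columns_odd a q b) 3 →* H, ∀ g, f g = 1 :=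
    fun H _ hH f g => cover_trivial ha hb hq hH f g
  exact ⟨not_lo h, h⟩

end Pool.Agent.Results.MP_3d425c_gt.PretzelThreefoldMixedSigns
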