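import Pool.Agent.L7h81.Pz.Slope
import Pool.Agent.L7h81.Pz.Kernel

set_option autoImplicit false

/-!
# Closed manifolds made of a Seifert piece and exteriors of positive pretzel knots

Let `K 0, …, K (n-1)` be pretzel knots `P(2 p 0 + 1, …, 2 p (k-1) + 1)` with odd numbers `k ≥ 3` of
columns and `S` the sphere with `n + m` holes.  Glue the exteriors of the knots to `n` of the
boundary tori of `S × S¹` and solid tori to the other `m`.  The fundamental group of the closed manifold
is the group `StarGroup` below: it is generated by the fibre `h`, the boundary curves of `S`, and the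
groups of the knots; the boundary curve `x i` of `S` and the fibre are glued to the curves
`μ ^ a * λ ^ b` and `μ ^ c * λ ^ d` of the knot `K i` (`a d - b c = ± 1`), and the meridian of the solid
torus number `j` is `y j ^ P j * h ^ Q j`.

We show: if there are real numbers `r i > -(k i - 2)` with `c i - d i * r i ≠ 0` and
`∑ i, (a i - b i * r i) / (c i - d i * r i) = ∑ j, Q j / P j`, then the group acts on the line by
increasing homeomorphisms, such that the fibre `h` acts as the translation by `1`.  The condition is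
always satisfied if two of the knots have `d ≠ 0` and `c / d > -(k - 2)`, that is, if the slope `c / d`
of the fibre in two of the exteriors is larger than `-(k - 2)`; the remaining data are then arbitrary.
(By Boyer, Rolfsen and Wiest the fundamental group is then left-orderable whenever the manifold
is irreducible.)  Examples: `n = 2`, `m = 0`: the unions of two exteriors; `n = 2`, `m = 1`, `h` the
meridian: surgeries on connected sums (here the second part does not apply); `n = 1`, `m = 2`: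
surgeries on cables.

The orientations are those of `PretzelSurgeries` (same folder), the crossings of the knots are negative.

Idea.  The representations of `PretzelSurgeries` exist for all real slopes: for `r > -(k - 2)` and all `s`
the group of `K` acts on the line such that the meridian acts as the translation by `s` and the longitude
as the translation by `-r s` (`Pool.Agent.L7h81.Pz.slope_rep`): in an action of the kind constructed there
`μ` and `λ` act as translations by `t` and `-F`, `F / t = r`, and the action is conjugated by the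
multiplication by `s / t`.  Since the peripheral subgroups act by translations, the actions of the
pieces can be glued.
-/

namespace Pool.Agent.Results.MP_3d425c_gt.StarGluings

/-- A nontrivial group is left-orderable if it carries a strict total order that is invariant
under left multiplication. -/
def LeftOrderable (G : Type*) [Group G] : Prop :=
  Nontrivial G ∧ ∃ lt : G → G → Prop, IsStrictTotalOrder G lt ∧
    ∀ a b c : G, lt a b ↔ lt (c * a) (c * b)

/-- One crossing of a vertical twist region: if the two strands, both oriented downwards, have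
meridians `(x, y)` (left, right) above the crossing, then they have meridians `(y, y⁻¹ x y)`
below it.  The inverse is the crossing of the other handedness. -/
def crossing (G : Type*) [Group G] : Equiv.Perm (G × G) where
  toFun w := (w.2, w.2⁻¹ * w.1 * w.2)
  invFun w := (w.1 * w.2 * w.1⁻¹, w.1)
  left_inv w := by ext <;> simp [mul_assoc]
  right_inv w := by ext <;> simp [mul_assoc]

section defs
variable {k : ℕ}

/-- The meridian `a j` of the arc at the top of the diagram that joins the top right end of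
column `j - 1` to the top left end of column `j` (`j` modulo `k`), oriented into column `j`. -/
def arc (j : ZMod k) : FreeGroup (ZMod k) := FreeGroup.of j

/-- The downward meridians of the two strands at the bottom of column `j`, which has `m j`
crossings; at the top they are `a j` and `(a (j+1))⁻¹`. -/
def bottom (m : ZMod k → ℤ) (j : ZMod k) : FreeGroup (ZMod k) × FreeGroup (ZMod k) :=
  (crossing (FreeGroup (ZMod k)) ^ m j) (arc j, (arc (j + 1))⁻¹)

/-- The bottom right end of column `j` is joined to the bottom left end of column `j + 1`. -/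
def relator (m : ZMod k → ℤ) (j : ZMod k) : FreeGroup (ZMod k) :=
  (bottom m j).2 * (bottom m (j + 1)).1

/-- The group of the pretzel link with columns of `m 0`, …, `m (k-1)` crossings. -/
abbrev PretzelGroup (m : ZMod k → ℤ) : Type := PresentedGroup (Set.range (relator m))

/-- The columns `2 p j + 1`. -/
def columns (p : ZMod k → ℕ) : ZMod k → ℤ := fun j => 2 * (p j : ℤ) + 1

end defs

section formulas
variable {G : Type*} [Group G]

theorem crossing_two (w : G × G) : (crossing G ^ (2 : ℤ)) w =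
    ((w.1 * w.2)⁻¹ * w.1 * (w.1 * w.2), (w.1 * w.2)⁻¹ * w.2 * (w.1 * w.2)) := by
  rw [show (2 : ℤ) = ((2 : ℕ) : ℤ) from rfl, zpow_natCast, pow_two]
  show crossing G (crossing G w) = _
  ext
  · show w.2⁻¹ * w.1 * w.2 = _
    simp only; group
  · show (w.2⁻¹ * w.1 * w.2)⁻¹ * w.2 * (w.2⁻¹ * w.1 * w.2) = _
    simp only; group

theorem crossing_even_nat (x y : G) (l : ℕ) : ((crossing G ^ (2 : ℤ)) ^ l) (x, y) =
    ((x * y) ^ (-(l : ℤ)) * x * (x * y) ^ (l : ℤ), (x * y) ^ (-(l : ℤ)) * y * (x * y) ^ (l : ℤ)) := by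
  induction l with
  | zero => simp
  | succ l ih =>
    rw [pow_succ', Equiv.Perm.mul_apply, ih, crossing_two]
    set P := x * y with hP
    have h1 : (P ^ (-(l : ℤ)) * x * P ^ (l : ℤ)) * (P ^ (-(l : ℤ)) * y * P ^ (l : ℤ)) = P := by
      calc _ = P ^ (-(l : ℤ)) * (x * y) * P ^ (l : ℤ) := by group
        _ = P := by rw [← hP]; group
    simp only [h1]
    push_cast
    ext
    · simp only; group
    · simp only; group

theorem crossing_even (x y : G) (l : ℤ) : (crossing G ^ (2 * l)) (x, y) =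
    ((x * y) ^ (-l) * x * (x * y) ^ l, (x * y) ^ (-l) * y * (x * y) ^ l) := by
  rw [zpow_mul]
  rcases Int.eq_nat_or_neg l with ⟨l, rfl | rfl⟩
  · rw [zpow_natCast]; exact crossing_even_nat x y l
  · rw [zpow_neg, zpow_natCast, Equiv.Perm.inv_eq_iff_eq, crossing_even_nat]
    set P := x * y with hP
    have h1 : (P ^ (-(-(l : ℤ))) * x * P ^ (-(l : ℤ))) * (P ^ (-(-(l : ℤ))) * y * P ^ (-(l : ℤ)))
        = P := by
      calc _ = P ^ ((l : ℤ)) * (x * y) * P ^ (-(l : ℤ)) := by group
        _ = P := by rw [← hP]; group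
    simp only [h1]
    ext
    · simp only; group
    · simp only; group

theorem crossing_odd (x y : G) (l : ℤ) : (crossing G ^ (2 * l + 1)) (x, y) =
    ((x * y) ^ (-l) * y * (x * y) ^ l, (x * y) ^ (-l - 1) * x * (x * y) ^ (l + 1)) := by
  rw [add_comm, zpow_one_add, Equiv.Perm.mul_apply, crossing_even]
  set P := x * y with hP
  have hy : y = x⁻¹ * P := by rw [hP]; group
  show ((P ^ (-l) * y * P ^ l), (P ^ (-l) * y * P ^ l)⁻¹ * (P ^ (-l) * x * P ^ l) *
    (P ^ (-l) * y * P ^ l)) = _
  ext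
  · rfl
  · simp only
    calc (P ^ (-l) * y * P ^ l)⁻¹ * (P ^ (-l) * x * P ^ l) * (P ^ (-l) * y * P ^ l)
        = P ^ (-l) * (y⁻¹ * (x * y)) * P ^ l := by group
      _ = P ^ (-l) * (y⁻¹ * P) * P ^ l := by rw [← hP]
      _ = P ^ (-l - 1) * (P * y⁻¹) * P ^ (l + 1) := by group
      _ = P ^ (-l - 1) * x * P ^ (l + 1) := by rw [hP]; group

end formulas

section links
variable {k : ℕ}

theorem bottom_odd (m : ZMod k → ℤ) (j : ZMod k) (l : ℤ) (h : m j = 2 * l + 1) :
    bottom m j = ((arc j * (arc (j + 1))⁻¹) ^ (-l) * (arc (j + 1))⁻¹ *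
        (arc j * (arc (j + 1))⁻¹) ^ l,
      (arc j * (arc (j + 1))⁻¹) ^ (-l - 1) * arc j * (arc j * (arc (j + 1))⁻¹) ^ (l + 1)) := by
  unfold bottom
  rw [h, crossing_odd]

theorem rel_formula {G : Type*} [Group G] (μ : FreeGroup (ZMod k) →* G) (m : ZMod k → ℤ)
    (j : ZMod k) (l l' : ℤ) (h : m j = 2 * l + 1) (h' : m (j + 1) = 2 * l' + 1)
    (hr : μ (relator m j) = 1) :
    (μ (arc j) * (μ (arc (j + 1)))⁻¹) ^ (-l - 1) * μ (arc j) *
      (μ (arc j) * (μ (arc (j + 1)))⁻¹) ^ (l + 1) *
      ((μ (arc (j + 1)) * (μ (arc (j + 1 + 1)))⁻¹) ^ (-l') * (μ (arc (j + 1 + 1)))⁻¹ *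
        (μ (arc (j + 1)) * (μ (arc (j + 1 + 1)))⁻¹) ^ l') = 1 := by
  unfold relator at hr
  rw [bottom_odd m j l h, bottom_odd m (j + 1) l' h'] at hr
  simpa only [map_mul, map_zpow, map_inv] using hr


end links

/-- The longitude of the pretzel knot `P(2 p 0 + 1, …, 2 p (k-1) + 1)`, `k` odd, see above. -/
def longitude {k : ℕ} (p : ZMod k → ℕ) : FreeGroup (ZMod k) :=
  ((List.range k).map fun i =>
    (arc ((2 * i : ℕ) : ZMod k) * (arc ((2 * i + 1 : ℕ) : ZMod k))⁻¹) ^
      ((p ((2 * i : ℕ) : ZMod k) : ℤ) + 1) *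
    (arc ((2 * i + 1 : ℕ) : ZMod k) * (arc ((2 * i + 2 : ℕ) : ZMod k))⁻¹) ^
      (-(p ((2 * i + 1 : ℕ) : ZMod k) : ℤ))).prod

theorem longitude_eq {k : ℕ} (p : ZMod k → ℕ) :
    longitude p = Pool.Agent.L7h81.Pz.lword p (arc : ZMod k → FreeGroup (ZMod k)) k := rfl

theorem map_lword {G H : Type*} [Group G] [Group H] (φ : G →* H) {k : ℕ} (p : ZMod k → ℕ)
    (a : ZMod k → G) (n : ℕ) : φ (Pool.Agent.L7h81.Pz.lword p a n) =
      Pool.Agent.L7h81.Pz.lword p (fun j => φ (a j)) n := by
  unfold Pool.Agent.L7h81.Pz.lword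
  rw [map_list_prod, List.map_map]
  congr 1
  refine List.map_congr_left fun i _ => ?_
  simp only [Function.comp, map_mul, map_zpow, map_inv]

/-- In the group of the knot the longitude commutes with the meridian `arc 0`. -/
theorem longitude_comm {k : ℕ} (p : ZMod k → ℕ) :
    (PresentedGroup.mk (Set.range (relator (columns p)))) (arc 0 * longitude p) =
      (PresentedGroup.mk (Set.range (relator (columns p)))) (longitude p * arc 0) := by
  set μ := PresentedGroup.mk (Set.range (relator (columns p))) with hμ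
  set a : ZMod k → PretzelGroup (columns p) := fun j => μ (arc j) with ha
  have hrel : ∀ j, (a j * (a (j + 1))⁻¹) ^ (-(p j : ℤ) - 1) * a j *
      (a j * (a (j + 1))⁻¹) ^ ((p j : ℤ) + 1) *
      ((a (j + 1) * (a (j + 1 + 1))⁻¹) ^ (-(p (j + 1) : ℤ)) * (a (j + 1 + 1))⁻¹ *
      (a (j + 1) * (a (j + 1 + 1))⁻¹) ^ (p (j + 1) : ℤ)) = 1 := fun j =>
    rel_formula μ (columns p) j (p j) (p (j + 1)) rfl rfl (PresentedGroup.one_of_mem ⟨j, rfl⟩)
  have key : ∀ n : ℕ, a 0 * Pool.Agent.L7h81.Pz.lword p a n =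
      Pool.Agent.L7h81.Pz.lword p a n * a ((2 * n : ℕ) : ZMod k) := by
    intro n
    induction n with
    | zero => simp [Pool.Agent.L7h81.Pz.lword]
    | succ n ih =>
      rw [Pool.Agent.L7h81.Pz.lword_succ, ← mul_assoc, ih]
      have e1 : ((2 * n + 1 : ℕ) : ZMod k) = ((2 * n : ℕ) : ZMod k) + 1 := by push_cast; rfl
      have e2 : ((2 * n + 2 : ℕ) : ZMod k) = ((2 * n : ℕ) : ZMod k) + 1 + 1 := by push_cast; ring
      have e3 : ((2 * (n + 1) : ℕ) : ZMod k) = ((2 * n : ℕ) : ZMod k) + 1 + 1 := by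
        push_cast; ring
      rw [e3, e2, e1]
      set j : ZMod k := ((2 * n : ℕ) : ZMod k)
      have h := hrel j
      set P := a j * (a (j + 1))⁻¹
      set Q := a (j + 1) * (a (j + 1 + 1))⁻¹
      set W := Pool.Agent.L7h81.Pz.lword p a n
      have h2 : a j * (P ^ ((p j : ℤ) + 1) * Q ^ (-(p (j + 1) : ℤ))) =
          (P ^ ((p j : ℤ) + 1) * Q ^ (-(p (j + 1) : ℤ))) * a (j + 1 + 1) := by
        calc a j * (P ^ ((p j : ℤ) + 1) * Q ^ (-(p (j + 1) : ℤ))) =
            P ^ ((p j : ℤ) + 1) * (P ^ (-(p j : ℤ) - 1) * a j * P ^ ((p j : ℤ) + 1) *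
              (Q ^ (-(p (j + 1) : ℤ)) * (a (j + 1 + 1))⁻¹ * Q ^ (p (j + 1) : ℤ))) *
              Q ^ (-(p (j + 1) : ℤ)) * a (j + 1 + 1) := by group
          _ = _ := by rw [h]; group
      rw [mul_assoc W, h2, mul_assoc W]
  rw [map_mul, map_mul, longitude_eq, map_lword]
  have h := key k
  have e : ((2 * k : ℕ) : ZMod k) = 0 := by push_cast; simp
  rw [e] at h
  exact h

theorem lo_line : LeftOrderable (ℝ ≃o ℝ) := by
  refine ⟨⟨⟨OrderIso.refl ℝ, OrderIso.addRight 1, ?_⟩⟩, Pool.Agent.L7h81.Pz.orderIso_lo⟩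
  intro h
  have := DFunLike.congr_fun h 0
  simp at this

/-- A pretzel knot `P(2 p 0 + 1, …, 2 p (k-1) + 1)`, `k ≥ 3` odd, with two curves `μ ^ a * λ ^ b` and
`μ ^ c * λ ^ d` on the boundary of its exterior which form a basis. -/
structure Piece where
  /-- the number of columns -/
  k : ℕ
  odd : Odd k
  three_le : 3 ≤ k
  /-- the column `j` has `2 p j + 1` crossings -/
  p : ZMod k → ℕ
  /-- the curve `μ ^ a * λ ^ b` is glued to the boundary of the base -/
  a : ℤ
  /-- see `a` -/
  b : ℤ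
  /-- the curve `μ ^ c * λ ^ d` is glued to the fibre -/
  c : ℤ
  /-- see `c` -/
  d : ℤ
  det : a * d - b * c = 1 ∨ a * d - b * c = -1

section star
variable {n m : ℕ}

/-- The generators: the fibre, the boundary curves of the base at the solid tori, and the arcs of the
diagrams of the knots. -/
abbrev Gen (K : Fin n → Piece) (m : ℕ) : Type := Unit ⊕ Fin m ⊕ (Σ i, ZMod (K i).k)

/-- The fibre `h`. -/
def fibre (K : Fin n → Piece) : FreeGroup (Gen K m) := FreeGroup.of (Sum.inl ())

/-- The boundary curve `y j` of the base at the solid torus number `j`. -/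
def bdry (K : Fin n → Piece) (j : Fin m) : FreeGroup (Gen K m) := FreeGroup.of (Sum.inr (Sum.inl j))

/-- The words in the meridians of the knot number `i`. -/
def incl (K : Fin n → Piece) (i : Fin n) : FreeGroup (ZMod (K i).k) →* FreeGroup (Gen K m) :=
  FreeGroup.map fun c => Sum.inr (Sum.inr ⟨i, c⟩)

/-- The curve `μ ^ u * λ ^ v` of the knot number `i`. -/
def peripheral (K : Fin n → Piece) (i : Fin n) (u v : ℤ) : FreeGroup (Gen K m) :=
  incl K i (arc 0 ^ u * longitude (K i).p ^ v)

/-- The relators: those of the knot groups, `h = μ ^ c * λ ^ d` for all knots, `h` commutes with the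
`y j`, the meridians `y j ^ P j * h ^ Q j` of the solid tori, and the product of the boundary curves
of the base (`μ ^ a * λ ^ b` for the knots). -/
def relators (K : Fin n → Piece) (P Q : Fin m → ℤ) : Set (FreeGroup (Gen K m)) :=
  {w | ∃ i j, w = incl K i (relator (columns (K i).p) j)} ∪
  {w | ∃ i, w = (fibre K)⁻¹ * peripheral K i (K i).c (K i).d} ∪
  {w | ∃ j, w = fibre K * bdry K j * (fibre K)⁻¹ * (bdry K j)⁻¹} ∪
  {w | ∃ j, w = bdry K j ^ P j * fibre K ^ Q j} ∪
  {(List.ofFn fun i => peripheral K i (K i).a (K i).b).prod * (List.ofFn fun j => bdry K j).prod}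

/-- The fundamental group of the union of `S × S¹`, the exteriors of the knots and the solid tori. -/
abbrev StarGroup (K : Fin n → Piece) (P Q : Fin m → ℤ) : Type := PresentedGroup (relators K P Q)

end star

open Pool.Agent.L7h81.Pz

theorem prod_TT {n : ℕ} (x : Fin n → ℝ) : (List.ofFn fun i => TT (x i)).prod = TT (∑ i, x i) := by
  induction n with
  | zero => simp [TT_zero]
  | succ n ih => rw [List.ofFn_succ, List.prod_cons, ih, Fin.sum_univ_succ, TT_add]

/-- The actions of the pieces can be glued. -/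
theorem glue {n m : ℕ} (K : Fin n → Piece) (P Q : Fin m → ℤ) (hP : ∀ j, P j ≠ 0) (r : Fin n → ℝ)
    (hr : ∀ i, -(((K i).k : ℝ) - 2) < r i) (hd : ∀ i, (K i).c - (K i).d * r i ≠ 0)
    (hsum : ∑ i, ((K i).a - (K i).b * r i) / ((K i).c - (K i).d * r i) = ∑ j, (Q j : ℝ) / P j) :
    ∃ f : StarGroup K P Q →* (ℝ ≃o ℝ), ∀ x : ℝ, f (PresentedGroup.mk _ (fibre K)) x = x + 1 := by
  have hne : ∀ i, NeZero (K i).k := fun i => ⟨by have := (K i).three_le; omega⟩
  have hrep : ∀ i, ∃ A : ZMod (K i).k → (ℝ ≃o ℝ), (∀ j, RelAt (K i).p A j) ∧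
      A 0 = TT (1 / ((K i).c - (K i).d * r i)) ∧
      lword (K i).p A (K i).k = TT (-(r i * (1 / ((K i).c - (K i).d * r i)))) := by
    intro i
    have := hne i
    obtain ⟨A, h1, h2, h3, _⟩ := slope_rep (K i).three_le (K i).p (hr i)
      (1 / ((K i).c - (K i).d * r i))
    exact ⟨A, h1, h2, h3⟩
  choose A hA0 hA1 hA2 using hrep
  set φ : FreeGroup (Gen K m) →* (ℝ ≃o ℝ) := FreeGroup.lift (fun g => match g with
    | Sum.inl _ => TT 1
    | Sum.inr (Sum.inl j) => TT (-((Q j : ℝ) / P j))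
    | Sum.inr (Sum.inr ⟨i, c⟩) => A i c) with hφ
  have hφ1 : φ (fibre K) = TT 1 := by simp [hφ, fibre]
  have hφ2 : ∀ j, φ (bdry K j) = TT (-((Q j : ℝ) / P j)) := fun j => by simp [hφ, bdry]
  have hφ3 : ∀ i w, φ (incl K i w) = FreeGroup.lift (A i) w := by
    intro i w
    have : φ.comp (incl K i) = FreeGroup.lift (A i) := by
      ext c : 1
      simp [hφ, incl]
    exact DFunLike.congr_fun this w
  have harc : ∀ i, ∀ c : ZMod (K i).k, FreeGroup.lift (A i) (arc c) = A i c := fun i c => by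
    simp [arc]
  have hφ4 : ∀ i u v, φ (peripheral K i u v) =
      TT ((u - v * r i) / ((K i).c - (K i).d * r i)) := by
    intro i u v
    unfold peripheral
    rw [hφ3, map_mul, map_zpow, map_zpow, longitude_eq, map_lword, harc, hA1 i]
    have : (fun j => FreeGroup.lift (A i) (arc j)) = A i := funext (harc i)
    rw [this, hA2 i, TT_zpow, TT_zpow, ← TT_add]
    congr 1
    have := hd i
    field_simp
    ring
  have hR : ∀ w ∈ relators K P Q, φ w = 1 := by
    rintro w ((((⟨i, j, rfl⟩ | ⟨i, rfl⟩) | ⟨j, rfl⟩) | ⟨j, rfl⟩) | rfl)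
    · rw [hφ3]
      unfold relator
      rw [bottom_odd (columns (K i).p) j ((K i).p j) rfl,
        bottom_odd (columns (K i).p) (j + 1) ((K i).p (j + 1)) rfl]
      simp only [map_mul, map_zpow, map_inv, harc]
      exact hA0 i j
    · rw [map_mul, map_inv, hφ1, hφ4, ← TT_neg, ← TT_add, div_self (hd i), neg_add_cancel, TT_zero]
    · rw [map_mul, map_mul, map_mul, map_inv, map_inv, hφ1, hφ2, ← TT_neg, ← TT_neg, ← TT_add,
        ← TT_add, ← TT_add, ← TT_zero]
      congr 1
      ring
    · rw [map_mul, map_zpow, map_zpow, hφ1, hφ2, TT_zpow, TT_zpow, ← TT_add, ← TT_zero]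
      congr 1
      have : (P j : ℝ) ≠ 0 := by exact_mod_cast hP j
      field_simp
      ring
    · rw [map_mul, map_list_prod, map_list_prod, List.map_ofFn, List.map_ofFn]
      have e1 : (φ ∘ fun i => peripheral K i (K i).a (K i).b) =
          fun i => TT (((K i).a - (K i).b * r i) / ((K i).c - (K i).d * r i)) :=
        funext fun i => hφ4 i _ _
      have e2 : (φ ∘ fun j => bdry K j) = fun j => TT (-((Q j : ℝ) / P j)) := funext hφ2
      rw [e1, e2, prod_TT, prod_TT, ← TT_add, hsum, Finset.sum_neg_distrib, add_neg_cancel, TT_zero]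
  refine ⟨PresentedGroup.toGroup hR, fun x => ?_⟩
  have : PresentedGroup.toGroup hR (PresentedGroup.mk _ (fibre K)) = φ (fibre K) := rfl
  rw [this, hφ1]
  rfl

/-- The values `(a - b r) / (c - d r)` for a piece with large fibre slope. -/
theorem reach (K : Piece) (d₁ : K.d ≠ 0) (h₁ : -((K.k : ℝ) - 2) < K.c / K.d) :
    ∃ N : ℝ, ∀ v : ℝ, N < |v| → ∃ r : ℝ, -((K.k : ℝ) - 2) < r ∧ K.c - K.d * r ≠ 0 ∧
      (K.a - K.b * r) / (K.c - K.d * r) = v := by
  have hd : (K.d : ℝ) ≠ 0 := by exact_mod_cast d₁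
  set w : ℝ := K.c / K.d + (K.k - 2) with hw
  have hw0 : 0 < w := by linarith
  set ε : ℝ := K.a * K.d - K.b * K.c with hε
  have hε1 : |ε| = 1 := by
    rcases K.det with h | h
    · have : ε = 1 := by rw [hε]; exact_mod_cast h
      rw [this, abs_one]
    · have : ε = -1 := by rw [hε]; exact_mod_cast h
      rw [this, abs_neg, abs_one]
  have hε0 : ε ≠ 0 := by intro h; rw [h, abs_zero] at hε1; exact zero_ne_one hε1
  refine ⟨1 / w + |(K.b : ℝ) / K.d|, fun v hv => ?_⟩
  have h1 : 1 / w < |v - K.b / K.d| := by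
    have := abs_sub_abs_le_abs_sub v (K.b / K.d : ℝ)
    linarith
  have hvb : v - K.b / K.d ≠ 0 := by
    intro h
    rw [h, abs_zero] at h1
    have : 0 < 1 / w := by positivity
    linarith
  set u : ℝ := ε / (K.d ^ 2 * (v - K.b / K.d)) with hu
  have hu0 : u ≠ 0 := div_ne_zero hε0 (mul_ne_zero (pow_ne_zero 2 hd) hvb)
  have hd1 : (1 : ℝ) ≤ (K.d : ℝ) ^ 2 := by
    have : (1 : ℤ) ≤ K.d ^ 2 := by
      have := sq_pos_of_ne_zero d₁
      omega
    exact_mod_cast this
  have huw : |u| < w := by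
    rw [hu, abs_div, hε1, abs_mul, abs_of_pos (by linarith : (0 : ℝ) < (K.d : ℝ) ^ 2)]
    have h2 : 0 < |v - K.b / K.d| := abs_pos.2 hvb
    rw [div_lt_iff₀ (by positivity)]
    have h3 : 1 < w * |v - K.b / K.d| := by
      rw [div_lt_iff₀ hw0] at h1
      linarith
    nlinarith
  have e1 : (K.c : ℝ) - K.d * (K.c / K.d - u) = K.d * u := by field_simp; ring
  refine ⟨K.c / K.d - u, ?_, ?_, ?_⟩
  · have := (abs_lt.1 huw).2
    linarith
  · rw [e1]; exact mul_ne_zero hd hu0
  · rw [e1, div_eq_iff (mul_ne_zero hd hu0)]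
    have e2 : ε = u * (K.d ^ 2 * (v - K.b / K.d)) := by
      rw [hu, div_mul_cancel₀ _ (mul_ne_zero (pow_ne_zero 2 hd) hvb)]
    have e3 : (K.a : ℝ) * K.d - K.b * K.c = u * (K.d ^ 2 * v - K.d * K.b) := by
      rw [← hε, e2]; field_simp
    have e4 : K.d * (K.a - K.b * (K.c / K.d - u)) = K.d * (v * (K.d * u)) := by
      calc (K.d : ℝ) * (K.a - K.b * (K.c / K.d - u)) =
          (K.a * K.d - K.b * K.c) + K.d * K.b * u := by field_simp; ring
        _ = _ := by rw [e3]; ring
    exact mul_left_cancel₀ hd e4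

/-- If the fibre slopes of two pieces are large enough, then the numerical condition holds. -/
theorem solvable {n m : ℕ} (K : Fin n → Piece) (P Q : Fin m → ℤ) {i₁ i₂ : Fin n} (hi : i₁ ≠ i₂)
    (d₁ : (K i₁).d ≠ 0) (d₂ : (K i₂).d ≠ 0)
    (h₁ : -(((K i₁).k : ℝ) - 2) < (K i₁).c / (K i₁).d)
    (h₂ : -(((K i₂).k : ℝ) - 2) < (K i₂).c / (K i₂).d) :
    ∃ r : Fin n → ℝ, (∀ i, -(((K i).k : ℝ) - 2) < r i) ∧ (∀ i, (K i).c - (K i).d * r i ≠ 0) ∧
      ∑ i, ((K i).a - (K i).b * r i) / ((K i).c - (K i).d * r i) = ∑ j, (Q j : ℝ) / P j := by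
  classical
  obtain ⟨N₁, hN₁⟩ := reach (K i₁) d₁ h₁
  obtain ⟨N₂, hN₂⟩ := reach (K i₂) d₂ h₂
  set r₀ : Fin n → ℝ := fun i => |((K i).c : ℝ)| + 1 with hr₀
  have hr1 : ∀ i, -(((K i).k : ℝ) - 2) < r₀ i := by
    intro i
    have h3 : (3 : ℝ) ≤ (K i).k := by exact_mod_cast (K i).three_le
    have := abs_nonneg ((K i).c : ℝ)
    show -(((K i).k : ℝ) - 2) < |((K i).c : ℝ)| + 1
    linarith
  have hr2 : ∀ i, (K i).c - (K i).d * r₀ i ≠ 0 := by
    intro i h
    by_cases hd : (K i).d = 0
    · rw [hd] at h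
      have hc : (K i).c = 0 := by
        have : ((K i).c : ℝ) = 0 := by simpa using h
        exact_mod_cast this
      rcases (K i).det with h' | h' <;> rw [hd, hc] at h' <;> simp at h'
    · have h1 : ((K i).c : ℝ) = (K i).d * r₀ i := by linarith
      have h2 : |((K i).c : ℝ)| = |((K i).d : ℝ)| * (|((K i).c : ℝ)| + 1) := by
        have h3 : |r₀ i| = |((K i).c : ℝ)| + 1 := abs_of_pos (by positivity)
        rw [← h3, ← abs_mul, ← h1]
      have h3 : (1 : ℝ) ≤ |((K i).d : ℝ)| := by
        have := Int.one_le_abs hd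
        exact_mod_cast this
      nlinarith [abs_nonneg ((K i).c : ℝ)]
  set F : Fin n → ℝ → ℝ := fun i x => ((K i).a - (K i).b * x) / ((K i).c - (K i).d * x) with hF
  set R : ℝ := ∑ j, (Q j : ℝ) / P j - ∑ i ∈ (Finset.univ.erase i₂).erase i₁, F i (r₀ i) with hR
  set v : ℝ := |N₁| + |N₂| + |R| + 1 with hv
  have hv0 : 0 ≤ v := by positivity
  obtain ⟨r₁, a1, a2, a3⟩ := hN₁ v (by
    rw [abs_of_nonneg hv0, hv]
    linarith [le_abs_self N₁, abs_nonneg N₂, abs_nonneg R])
  obtain ⟨r₂, b1, b2, b3⟩ := hN₂ (R - v) (by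
    have h5 : v - R ≤ |R - v| := by rw [abs_sub_comm]; exact le_abs_self _
    linarith [le_abs_self N₂, abs_nonneg N₁, le_abs_self R])
  set r : Fin n → ℝ := Function.update (Function.update r₀ i₁ r₁) i₂ r₂ with hr
  have e2 : r i₂ = r₂ := by rw [hr, Function.update_self]
  have e1 : r i₁ = r₁ := by rw [hr, Function.update_of_ne hi, Function.update_self]
  have e0 : ∀ i, i ≠ i₁ → i ≠ i₂ → r i = r₀ i := fun i h h' => by
    rw [hr, Function.update_of_ne h', Function.update_of_ne h]
  refine ⟨r, fun i => ?_, fun i => ?_, ?_⟩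
  · by_cases h2 : i = i₂
    · subst h2; rw [e2]; exact b1
    · by_cases h1 : i = i₁
      · subst h1; rw [e1]; exact a1
      · rw [e0 i h1 h2]; exact hr1 i
  · by_cases h2 : i = i₂
    · subst h2; rw [e2]; exact b2
    · by_cases h1 : i = i₁
      · subst h1; rw [e1]; exact a2
      · rw [e0 i h1 h2]; exact hr2 i
  · have s1 : ∑ i, F i (r i) = F i₂ (r i₂) + ∑ i ∈ Finset.univ.erase i₂, F i (r i) :=
      (Finset.add_sum_erase Finset.univ (fun i => F i (r i)) (Finset.mem_univ i₂)).symm
    have s2 : ∑ i ∈ Finset.univ.erase i₂, F i (r i) =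
        F i₁ (r i₁) + ∑ i ∈ (Finset.univ.erase i₂).erase i₁, F i (r i) :=
      (Finset.add_sum_erase (Finset.univ.erase i₂) (fun i => F i (r i))
        (Finset.mem_erase.2 ⟨hi, Finset.mem_univ i₁⟩)).symm
    have s3 : ∑ i ∈ (Finset.univ.erase i₂).erase i₁, F i (r i) =
        ∑ i ∈ (Finset.univ.erase i₂).erase i₁, F i (r₀ i) := by
      refine Finset.sum_congr rfl fun i hh => ?_
      obtain ⟨h1, h2⟩ := Finset.mem_erase.1 hh
      rw [e0 i h1 (Finset.mem_erase.1 h2).1]
    show ∑ i, F i (r i) = _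
    rw [s1, s2, s3, e1, e2]
    have t1 : F i₁ r₁ = v := a3
    have t2 : F i₂ r₂ = R - v := b3
    rw [t1, t2, hR]
    ring

/-- Let `K i` be pretzel knots `P(2 p 0 + 1, …, 2 p (k-1) + 1)` with odd `k ≥ 3`, and let `M` be the union
of the product of a sphere with holes and a circle, the exteriors of the `K i` and solid tori as
described above.

(1) If there are real numbers `r i > -(k i - 2)` with `c i - d i * r i ≠ 0` and
`∑ i, (a i - b i * r i) / (c i - d i * r i) = ∑ j, Q j / P j`, then the fundamental group of `M` has a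
homomorphism to the left-orderable group of order automorphisms of the line that maps the fibre to
the translation by `1`.

(2) This is always the case if there are two knots with `d i ≠ 0` and `c i / d i > -(k i - 2)`. -/
theorem result :
    LeftOrderable (ℝ ≃o ℝ) ∧
    (∀ (n m : ℕ) (K : Fin n → Piece) (P Q : Fin m → ℤ), (∀ j, P j ≠ 0) → ∀ r : Fin n → ℝ,
      (∀ i, -(((K i).k : ℝ) - 2) < r i) → (∀ i, (K i).c - (K i).d * r i ≠ 0) →
      ∑ i, ((K i).a - (K i).b * r i) / ((K i).c - (K i).d * r i) = ∑ j, (Q j : ℝ) / P j →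
      ∃ f : StarGroup K P Q →* (ℝ ≃o ℝ), ∀ x : ℝ, f (PresentedGroup.mk _ (fibre K)) x = x + 1) ∧
    (∀ (n m : ℕ) (K : Fin n → Piece) (P Q : Fin m → ℤ), (∀ j, P j ≠ 0) →
      (∃ i₁ i₂, i₁ ≠ i₂ ∧ (K i₁).d ≠ 0 ∧ (K i₂).d ≠ 0 ∧
        -(((K i₁).k : ℝ) - 2) < (K i₁).c / (K i₁).d ∧
        -(((K i₂).k : ℝ) - 2) < (K i₂).c / (K i₂).d) →
      ∃ f : StarGroup K P Q →* (ℝ ≃o ℝ), ∀ x : ℝ, f (PresentedGroup.mk _ (fibre K)) x = x + 1) := by
  refine ⟨lo_line, fun n m K P Q hP r h1 h2 h3 => glue K P Q hP r h1 h2 h3, ?_⟩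
  rintro n m K P Q hP ⟨i₁, i₂, hi, d₁, d₂, h₁, h₂⟩
  obtain ⟨r, r1, r2, r3⟩ := solvable K P Q hi d₁ d₂ h₁ h₂
  exact glue K P Q hP r r1 r2 r3

end Pool.Agent.Results.MP_3d425c_gt.StarGluings
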